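import Mathlib

set_option autoImplicit false

open Finset

namespace V11249.ProbFinite

/-- weights of a random subset -/
lemma weights_total {α : Type*} [Fintype α] [DecidableEq α] (ρ : ℝ) :
    ∑ R : Finset α, ρ ^ R.card * (1 - ρ) ^ (Rᶜ).card = 1 := by
  have h := Finset.prod_add (fun _ : α => ρ) (fun _ => 1 - ρ) univ
  simp only [prod_const, add_sub_cancel, one_pow, powerset_univ] at h
  refine Eq.trans (Finset.sum_congr rfl fun R _ => ?_) h.symm
  rw [← compl_eq_univ_sdiff]

/-- the probability that a random subset misses `T` -/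
lemma weights_miss {α : Type*} [Fintype α] [DecidableEq α] (ρ : ℝ) (T : Finset α) :
    ∑ R : Finset α, (if Disjoint T R then ρ ^ R.card * (1 - ρ) ^ (Rᶜ).card else 0) =
      (1 - ρ) ^ T.card := by
  have h := Finset.prod_add (fun t : α => if t ∈ T then 0 else ρ) (fun _ => 1 - ρ) univ
  have h1 : ∏ i : α, ((if i ∈ T then 0 else ρ) + (1 - ρ)) = (1 - ρ) ^ T.card := by
    have : ∀ i : α, ((if i ∈ T then 0 else ρ) + (1 - ρ)) = if i ∈ T then 1 - ρ else 1 := by
      intro i
      split_ifs <;> ring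
    simp only [this]
    rw [Finset.prod_ite_mem, univ_inter, prod_const]
  rw [h1, powerset_univ] at h
  refine Eq.trans (Finset.sum_congr rfl fun R _ => ?_) h.symm
  rw [← compl_eq_univ_sdiff, prod_const]
  split_ifs with hd
  · congr 1
    rw [← prod_const]
    refine prod_congr rfl fun t ht => ?_
    rw [if_neg (fun h => Finset.disjoint_left.1 hd h ht)]
  · rw [Finset.not_disjoint_iff] at hd
    obtain ⟨t, ht, htR⟩ := hd
    have h0 : ∏ i ∈ R, (if i ∈ T then (0 : ℝ) else ρ) = 0 := Finset.prod_eq_zero htR (if_pos ht)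
    rw [h0, zero_mul]

/-- the probability that a random subset contains `t` -/
lemma weights_mem {α : Type*} [Fintype α] [DecidableEq α] (ρ : ℝ) (t : α) :
    ∑ R : Finset α, (if t ∈ R then ρ ^ R.card * (1 - ρ) ^ (Rᶜ).card else 0) = ρ := by
  have h1 := weights_total (α := α) ρ
  have h2 := weights_miss ρ {t}
  rw [card_singleton, pow_one] at h2
  have h3 : ∀ R : Finset α, (if t ∈ R then ρ ^ R.card * (1 - ρ) ^ (Rᶜ).card else 0) =
      ρ ^ R.card * (1 - ρ) ^ (Rᶜ).card -
        (if Disjoint {t} R then ρ ^ R.card * (1 - ρ) ^ (Rᶜ).card else 0) := by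
    intro R
    by_cases ht : t ∈ R
    · rw [if_pos ht, if_neg (by simpa using ht), sub_zero]
    · rw [if_neg ht, if_pos (by simpa using ht), sub_self]
  simp only [h3]
  rw [sum_sub_distrib, h1, h2]
  ring

/-- The averaging argument. -/
lemma exists_subset {Z α : Type*} [Fintype Z] [Fintype α] [DecidableEq α] (p : Z → ℝ)
    (hp : ∀ z, 0 ≤ p z) (hp1 : ∑ z, p z = 1) (T : Z → Finset α) (t : Z → α) (ε ρ : ℝ) (N : ℕ)
    (hε : 0 < ε) (hρ : 0 < ρ) (hρ1 : ρ < 1) (hN : (1 - ρ) ^ N ≤ 1 / 4)
    (hT : ε / 2 ≤ ∑ z, if N ≤ (T z).card then p z else 0) :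
    ∃ R : Finset α, ε / 4 ≤ ∑ z, (if ¬ Disjoint (T z) R then p z else 0) ∧
      ∑ z, (if t z ∈ R then p z else 0) ≤ 8 * ρ / ε := by
  set w : Finset α → ℝ := fun R => ρ ^ R.card * (1 - ρ) ^ (Rᶜ).card with hw
  have hw0 : ∀ R, 0 ≤ w R := fun R =>
    mul_nonneg (pow_nonneg hρ.le _) (pow_nonneg (by linarith) _)
  set h : Finset α → ℝ := fun R => ∑ z, (if ¬ Disjoint (T z) R then p z else 0) with hh
  set g : Finset α → ℝ := fun R => ∑ z, (if t z ∈ R then p z else 0) with hg
  have e1 : ∑ R, w R * g R = ρ := by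
    have : ∀ R, w R * g R = ∑ z, p z * (if t z ∈ R then w R else 0) := by
      intro R
      rw [hg, mul_sum]
      refine sum_congr rfl fun z _ => ?_
      split_ifs <;> ring
    simp only [this]
    rw [sum_comm]
    have : ∀ z, ∑ R, p z * (if t z ∈ R then w R else 0) = p z * ρ := by
      intro z
      rw [← mul_sum, weights_mem]
    simp only [this]
    rw [← sum_mul, hp1, one_mul]
  have e2 : ε / 2 * (3 / 4) ≤ ∑ R, w R * h R := by
    have : ∀ R, w R * h R = ∑ z, p z * (w R - (if Disjoint (T z) R then w R else 0)) := by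
      intro R
      rw [hh, mul_sum]
      refine sum_congr rfl fun z _ => ?_
      by_cases hd : Disjoint (T z) R
      · rw [if_neg (not_not.2 hd), if_pos hd]; ring
      · rw [if_pos hd, if_neg hd]; ring
    simp only [this]
    rw [sum_comm]
    have : ∀ z, ∑ R, p z * (w R - (if Disjoint (T z) R then w R else 0)) =
        p z * (1 - (1 - ρ) ^ (T z).card) := by
      intro z
      rw [← mul_sum, sum_sub_distrib, weights_total, weights_miss]
    simp only [this]
    calc ε / 2 * (3 / 4) ≤ (∑ z, if N ≤ (T z).card then p z else 0) * (3 / 4) := by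
          exact mul_le_mul_of_nonneg_right hT (by norm_num)
      _ = ∑ z, (if N ≤ (T z).card then p z else 0) * (3 / 4) := sum_mul _ _ _
      _ ≤ _ := by
        refine sum_le_sum fun z _ => ?_
        have h1 : (1 - ρ) ^ (T z).card ≤ 1 := pow_le_one₀ (by linarith) (by linarith)
        split_ifs with hz
        · refine mul_le_mul_of_nonneg_left ?_ (hp z)
          have h2 : (1 - ρ) ^ (T z).card ≤ (1 - ρ) ^ N :=
            pow_le_pow_of_le_one (by linarith) (by linarith) hz
          linarith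
        · rw [zero_mul]
          exact mul_nonneg (hp z) (by linarith)
  have e3 : ∑ R, w R = 1 := weights_total ρ
  have e4 : ∃ R, ε / 4 ≤ h R - ε / (8 * ρ) * g R := by
    by_contra hcon
    push Not at hcon
    have h5 : ∑ R, w R * (h R - ε / (8 * ρ) * g R) < ∑ R, w R * (ε / 4) := by
      refine sum_lt_sum (fun R _ => mul_le_mul_of_nonneg_left (hcon R).le (hw0 R)) ?_
      refine ⟨∅, mem_univ _, ?_⟩
      refine mul_lt_mul_of_pos_left (hcon ∅) ?_
      exact mul_pos (pow_pos hρ _) (pow_pos (by linarith) _)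
    rw [← sum_mul, e3, one_mul] at h5
    have h6 : ∑ R, w R * (h R - ε / (8 * ρ) * g R) =
        ∑ R, w R * h R - ε / (8 * ρ) * ∑ R, w R * g R := by
      rw [mul_sum, ← sum_sub_distrib]
      refine sum_congr rfl fun R _ => ?_
      ring
    rw [h6, e1] at h5
    have h7 : ε / (8 * ρ) * ρ = ε / 8 := by
      field_simp
    rw [h7] at h5
    linarith
  obtain ⟨R, hR⟩ := e4
  have hg0 : 0 ≤ g R := sum_nonneg fun z _ => by split_ifs; exacts [hp z, le_rfl]
  have hh1 : h R ≤ 1 := by
    rw [← hp1]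
    refine sum_le_sum fun z _ => ?_
    by_cases hz : ¬ Disjoint (T z) R
    · rw [if_pos hz]
    · rw [if_neg hz]
      exact hp z
  have hc : 0 < ε / (8 * ρ) := div_pos hε (by linarith)
  refine ⟨R, ?_, ?_⟩
  · have := mul_nonneg hc.le hg0
    show ε / 4 ≤ h R
    linarith
  · show g R ≤ 8 * ρ / ε
    have h8 : ε / (8 * ρ) * g R ≤ 1 := by linarith
    have h9 : g R = 8 * ρ / ε * (ε / (8 * ρ) * g R) := by
      field_simp
    rw [h9]
    have h10 : 0 ≤ 8 * ρ / ε := div_nonneg (by linarith) hε.le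
    nlinarith

/-- Infinitely many values. -/
lemma many (x : ℕ → ℕ → Bool) (y : ℕ → Bool) (h1 : ∀ j, ∀ᶠ n in Filter.atTop, x n j = y j)
    (h2 : ∀ m, ∃ n ≥ m, x n ≠ y) (m N : ℕ) : ∃ r0, ∀ r ≥ r0,
      N ≤ (Finset.image (fun n => fun j : Fin r => x n j) (Finset.Ico m r)).card := by
  classical
  have hinf : (x '' Set.Ici m).Infinite := by
    intro hfin
    have h3 : ∀ v ∈ x '' Set.Ici m, ∀ᶠ n in Filter.atTop, v ≠ y → x n ≠ v := by
      intro v _
      by_cases hv : v = y
      · exact Filter.Eventually.of_forall fun n h => absurd hv h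
      · obtain ⟨j, hj⟩ := Function.ne_iff.1 hv
        filter_upwards [h1 j] with n hn _ hnv
        rw [hnv] at hn
        exact hj hn
    have h4 := (Filter.eventually_all_finite hfin).2 h3
    obtain ⟨n0, hn0⟩ := Filter.eventually_atTop.1 h4
    obtain ⟨n, hn, hny⟩ := h2 (max m n0)
    exact hn0 n ((le_max_right _ _).trans hn) (x n) ⟨n, (le_max_left _ _).trans hn, rfl⟩ hny rfl
  obtain ⟨t, htsub, htN⟩ := hinf.exists_subset_card_eq N
  have h5 : ∀ v : t, ∃ n ≥ m, x n = v.1 := fun v => by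
    obtain ⟨n, hn, hv⟩ := htsub v.2
    exact ⟨n, hn, hv⟩
  choose f hf1 hf2 using h5
  have h6 : ∀ p : t × t, ∃ j, p.1 ≠ p.2 → p.1.1 j ≠ p.2.1 j := by
    intro p
    by_cases h : p.1 = p.2
    · exact ⟨0, fun h' => absurd h h'⟩
    · obtain ⟨j, hj⟩ := Function.ne_iff.1 (fun h' => h (Subtype.ext h'))
      exact ⟨j, fun _ => hj⟩
  choose g hg using h6
  refine ⟨(Finset.univ.sup f) + (Finset.univ.sup g) + 1, fun r hr => ?_⟩
  have hfr : ∀ v, f v < r := fun v => by
    have := Finset.le_sup (f := f) (Finset.mem_univ v)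
    omega
  have hgr : ∀ p, g p < r := fun p => by
    have := Finset.le_sup (f := g) (Finset.mem_univ p)
    omega
  rw [← htN, ← Fintype.card_coe, ← Finset.card_univ]
  refine Finset.card_le_card_of_injOn (fun v => fun j : Fin r => x (f v) j) ?_ ?_
  · intro v _
    rw [Finset.mem_coe, Finset.mem_image]
    exact ⟨f v, Finset.mem_Ico.2 ⟨hf1 v, hfr v⟩, rfl⟩
  · intro v _ v' _ hvv
    by_contra hne
    have h7 := hg (v, v') hne
    have h8 := congrFun hvv ⟨g (v, v'), hgr _⟩
    simp only [hf2] at h8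
    exact h7 h8

end V11249.ProbFinite
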