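import Mathlib

set_option autoImplicit false

open Cardinal Set Filter Topology

universe u

namespace V11249.GBaire

/-- The cardinal `κ` as a well order: the set of ordinals below `κ`. -/
abbrev Pt (κ : Cardinal.{u}) : Type u := κ.ord.ToType

/-- The functions from `κ` to `κ`. -/
def GB (κ : Cardinal.{u}) : Type u := Pt κ → Pt κ

/-- The set of all functions which agree with `x` below `a`. -/
def nb {κ : Cardinal.{u}} (x : GB κ) (a : Pt κ) : Set (GB κ) := {y | ∀ b < a, y b = x b}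

/-- The bounded topology. -/
instance (κ : Cardinal.{u}) : TopologicalSpace (GB κ) :=
  TopologicalSpace.generateFrom {U | ∃ x a, U = nb x a}

/-- The classes `Σ⁰_ξ` of a topological space, `1 ≤ ξ`: the class `Σ⁰_1` consists of the open sets,
and for `1 < ξ` the class `Σ⁰_ξ` consists of the unions of at most `κ` sets whose complements are
in the union of the classes `Σ⁰_η`, `1 ≤ η < ξ`. -/
inductive Sig (κ : Cardinal.{u}) {X : Type u} [TopologicalSpace X] : Ordinal.{u} → Set X → Prop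
  | opens (U : Set X) (hU : IsOpen U) : Sig κ 1 U
  | union (ξ : Ordinal.{u}) (hξ : 1 < ξ) (A : Pt κ → Set X) (η : Pt κ → Ordinal.{u})
      (h1 : ∀ i, 1 ≤ η i) (h2 : ∀ i, η i < ξ) (h : ∀ i, Sig κ (η i) (A i)ᶜ) :
      Sig κ ξ (⋃ i, A i)

section basics

variable {κ : Cardinal.{u}}

lemma mkPt : #(Pt κ) = κ := by simp [Pt]

lemma bdd (hκ : κ.IsRegular) (S : Set (Pt κ)) (hS : #S < κ) : ∃ b, ∀ x ∈ S, x < b := by
  have h1 : #S < Order.cof (Pt κ) := by
    rw [show Order.cof (Pt κ) = κ.ord.cof from Ordinal.cof_toType _, hκ.cof_ord]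
    exact hS
  by_contra hcon
  push Not at hcon
  have h2 : IsCofinal S := fun a => by
    obtain ⟨x, hx, hxa⟩ := hcon a
    exact ⟨x, hx, hxa⟩
  exact absurd (Order.cof_le h2) (not_le.2 h1)

lemma bdd' (hκ : κ.IsRegular) {ι : Type u} (hι : #ι < κ) (f : ι → Pt κ) : ∃ b, ∀ i, f i < b := by
  obtain ⟨b, hb⟩ := bdd hκ (range f) (mk_range_le.trans_lt hι)
  exact ⟨b, fun i => hb _ ⟨i, rfl⟩⟩

lemma nonemptyPt (hκ : κ.IsRegular) : Nonempty (Pt κ) := by
  rw [← mk_ne_zero_iff, mkPt]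
  exact hκ.pos.ne'

lemma exGt (hκ : κ.IsRegular) (a : Pt κ) : ∃ b, a < b := by
  obtain ⟨b, hb⟩ := bdd hκ {a} (by
    rw [mk_singleton]
    exact one_lt_aleph0.trans_le hκ.aleph0_le)
  exact ⟨b, hb a rfl⟩

lemma noMax (hκ : κ.IsRegular) : NoMaxOrder (Pt κ) := ⟨exGt hκ⟩

lemma mkIio (a : Pt κ) : #(Iio a) < κ := by
  exact Cardinal.mk_Iio_toType_ord_lt a

lemma mkIic (hκ : κ.IsRegular) (a : Pt κ) : #(Iic a) < κ := by
  obtain ⟨b, hb⟩ := exGt hκ a
  exact (mk_le_mk_of_subset (fun x hx => lt_of_le_of_lt hx hb)).trans_lt (mkIio b)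

lemma powBound (hκ : κ.IsRegular) (hpow : Cardinal.powerlt 2 κ = κ) {ι : Type u} (hι : #ι < κ) :
    #(ι → Pt κ) ≤ κ := by
  have hch : ∀ f : ι → Pt κ, ∃ b, ∀ i, f i < b := bdd' hκ hι
  choose b hb using hch
  have hinj : Function.Injective (fun f : ι → Pt κ =>
      (⟨b f, fun i => ⟨f i, hb f i⟩⟩ : Σ c : Pt κ, (ι → Iio c))) := by
    intro f g hfg
    have h1 : b f = b g := congrArg Sigma.fst hfg
    have h2 := (Sigma.mk.inj_iff.1 hfg).2
    funext i
    have h3 : ∀ (c d : Pt κ) (hcd : c = d) (F : ι → Iio c) (G : ι → Iio d), F ≍ G →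
        (F i).1 = (G i).1 := by
      rintro c _ rfl F G hFG
      rw [eq_of_heq hFG]
    exact h3 _ _ h1 _ _ h2
  refine (mk_le_of_injective hinj).trans ?_
  rw [mk_sigma]
  refine (sum_le_mk_mul_iSup _).trans ?_
  rw [mkPt]
  refine (mul_le_mul' le_rfl (ciSup_le' fun c => ?_)).trans (mul_eq_self hκ.aleph0_le).le
  show #(ι → Iio c) ≤ κ
  rw [← power_def]
  calc #(Iio c) ^ #ι ≤ (2 ^ #(Iio c)) ^ #ι := power_le_power_right (cantor _).le
    _ = 2 ^ (#(Iio c) * #ι) := (power_mul).symm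
    _ ≤ Cardinal.powerlt 2 κ := le_powerlt 2 (mul_lt_of_lt hκ.aleph0_le (mkIio c) hι)
    _ = κ := hpow

/-- an enumeration of a nonempty set of size at most `κ` -/
lemma enum {α : Type u} [Nonempty α] (h : #α ≤ κ) : ∃ e : Pt κ → α, Function.Surjective e := by
  have h1 : #α ≤ #(Pt κ) := by rwa [mkPt]
  obtain ⟨g⟩ := h1
  exact ⟨Function.invFun g, Function.invFun_surjective g.injective⟩

lemma self_mem_nb (x : GB κ) (a : Pt κ) : x ∈ nb x a := fun _ _ => rfl

lemma nb_anti (x : GB κ) {a b : Pt κ} (h : a ≤ b) : nb x b ⊆ nb x a :=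
  fun _ hy c hc => hy c (hc.trans_le h)

lemma nb_eq {x y : GB κ} {a : Pt κ} (h : y ∈ nb x a) : nb y a = nb x a := by
  ext z
  constructor
  · intro hz b hb
    rw [hz b hb, h b hb]
  · intro hz b hb
    rw [hz b hb, h b hb]

lemma isOpen_nb (x : GB κ) (a : Pt κ) : IsOpen (nb x a) :=
  TopologicalSpace.isOpen_generateFrom_of_mem ⟨x, a, rfl⟩

lemma isOpen_iff (hκ : κ.IsRegular) (U : Set (GB κ)) :
    IsOpen U ↔ ∀ x ∈ U, ∃ a, nb x a ⊆ U := by
  constructor
  · intro h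
    induction h with
    | basic s hs =>
      obtain ⟨z, a, rfl⟩ := hs
      intro x hx
      exact ⟨a, (nb_eq hx).le⟩
    | univ =>
      intro x _
      obtain ⟨a⟩ := nonemptyPt hκ
      exact ⟨a, subset_univ _⟩
    | inter s t _ _ ih1 ih2 =>
      rintro x ⟨h1, h2⟩
      obtain ⟨a, ha⟩ := ih1 x h1
      obtain ⟨b, hb⟩ := ih2 x h2
      exact ⟨max a b, subset_inter ((nb_anti x (le_max_left _ _)).trans ha)
        ((nb_anti x (le_max_right _ _)).trans hb)⟩
    | sUnion S _ ih =>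
      rintro x ⟨s, hs, hx⟩
      obtain ⟨a, ha⟩ := ih s hs x hx
      exact ⟨a, ha.trans (subset_sUnion_of_mem hs)⟩
  · intro h
    have : U = ⋃ (x : GB κ) (a : Pt κ) (_ : nb x a ⊆ U), nb x a := by
      ext y
      simp only [mem_iUnion]
      constructor
      · intro hy
        obtain ⟨a, ha⟩ := h y hy
        exact ⟨y, a, ha, self_mem_nb y a⟩
      · rintro ⟨x, a, ha, hy⟩
        exact ha hy
    rw [this]
    exact isOpen_iUnion fun x => isOpen_iUnion fun a => isOpen_iUnion fun _ => isOpen_nb x a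

lemma isClopen_nb (hκ : κ.IsRegular) (x : GB κ) (a : Pt κ) : IsClopen (nb x a) := by
  refine ⟨⟨?_⟩, isOpen_nb x a⟩
  rw [isOpen_iff hκ]
  intro y hy
  refine ⟨a, fun z hz hzx => hy ?_⟩
  rw [← nb_eq hzx]
  intro b hb
  exact (hz b hb).symm

/-- Basic properties of a space: a basis of `κ` clopen sets, and intersections of fewer than `κ`
open sets are open. -/
structure Good (κ : Cardinal.{u}) (X : Type u) [TopologicalSpace X] : Prop where
  basis : ∃ V : Pt κ → Set X, (∀ t, IsClopen (V t)) ∧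
    ∀ U, IsOpen U → ∀ x ∈ U, ∃ t, x ∈ V t ∧ V t ⊆ U
  inter : ∀ (ι : Type u), #ι < κ → ∀ A : ι → Set X, (∀ i, IsOpen (A i)) → IsOpen (⋂ i, A i)

/-- the list of all basic sets of a subspace -/
lemma basicEnum (hκ : κ.IsRegular) (hpow : Cardinal.powerlt 2 κ = κ) :
    ∃ e : Pt κ → GB κ × Pt κ, ∀ (z : GB κ) (a : Pt κ), ∃ t, (e t).2 = a ∧ nb (e t).1 a = nb z a := by
  classical
  have := nonemptyPt hκ
  let i0 : Pt κ := Classical.arbitrary _
  let S : Type u := Σ a : Pt κ, (Iio a → Pt κ)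
  have hS : #S ≤ κ := by
    rw [mk_sigma]
    refine (sum_le_mk_mul_iSup _).trans ?_
    rw [mkPt]
    refine (mul_le_mul' le_rfl (ciSup_le' fun c => ?_)).trans (mul_eq_self hκ.aleph0_le).le
    exact powBound hκ hpow (mkIio c)
  have : Nonempty S := ⟨⟨i0, fun _ => i0⟩⟩
  obtain ⟨e, he⟩ := enum hS
  refine ⟨fun t => (fun b => if h : b ∈ Iio (e t).1 then (e t).2 ⟨b, h⟩ else i0, (e t).1), fun z a => ?_⟩
  obtain ⟨t, ht⟩ := he ⟨a, fun b => z b.1⟩
  refine ⟨t, by show (e t).1 = a; rw [ht], ?_⟩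
  apply nb_eq
  intro b hb
  have : ∀ (p : S) (hp : p = ⟨a, fun b => z b.1⟩),
      (if h : b ∈ Iio p.1 then p.2 ⟨b, h⟩ else i0) = z b := by
    rintro p rfl
    simp [hb]
  exact this _ ht

lemma good (hκ : κ.IsRegular) (hpow : Cardinal.powerlt 2 κ = κ) (X : Set (GB κ)) : Good κ X := by
  obtain ⟨e, he⟩ := basicEnum hκ hpow
  refine ⟨⟨fun t => Subtype.val ⁻¹' (nb (e t).1 (e t).2), fun t =>
    (isClopen_nb hκ _ _).preimage continuous_subtype_val, ?_⟩, ?_⟩
  · intro U hU x hx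
    obtain ⟨W, hW, rfl⟩ := isOpen_induced_iff.1 hU
    obtain ⟨a, ha⟩ := (isOpen_iff hκ W).1 hW x.1 hx
    obtain ⟨t, ht, ht2⟩ := he x.1 a
    subst ht
    refine ⟨t, ?_, ?_⟩
    · show x.1 ∈ nb (e t).1 (e t).2
      rw [ht2]
      exact self_mem_nb _ _
    · intro y hy
      apply ha
      rw [← ht2]
      exact hy
  · intro ι hι A hA
    choose W hW hWA using fun i => isOpen_induced_iff.1 (hA i)
    have : (⋂ i, A i) = Subtype.val ⁻¹' (⋂ i, W i) := by
      rw [preimage_iInter]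
      exact iInter_congr fun i => (hWA i).symm
    rw [this]
    refine IsOpen.preimage continuous_subtype_val ?_
    rw [isOpen_iff hκ]
    intro x hx
    have h1 : ∀ i, ∃ a, nb x a ⊆ W i := fun i =>
      (isOpen_iff hκ _).1 (hW i) x (mem_iInter.1 hx i)
    choose a ha using h1
    obtain ⟨b, hb⟩ := bdd' hκ hι a
    exact ⟨b, subset_iInter fun i => (nb_anti x (hb i).le).trans (ha i)⟩

end basics

section sig

variable {κ : Cardinal.{u}} {X : Type u} [TopologicalSpace X]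

lemma Sig.one_le {ξ : Ordinal.{u}} {A : Set X} (h : Sig κ ξ A) : 1 ≤ ξ := by
  cases h with
  | opens U hU => exact le_rfl
  | union ξ hξ A η h1 h2 h => exact hξ.le

lemma Sig.isOpen {A : Set X} (h : Sig κ 1 A) : IsOpen A := by
  cases h with
  | opens U hU => exact hU
  | union ξ hξ A η h1 h2 h => exact absurd hξ (lt_irrefl _)

lemma Sig.exists_union {ξ : Ordinal.{u}} {A : Set X} (h : Sig κ ξ A) (hξ : 1 < ξ) :
    ∃ (B : Pt κ → Set X) (η : Pt κ → Ordinal.{u}), (∀ i, 1 ≤ η i) ∧ (∀ i, η i < ξ) ∧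
      (∀ i, Sig κ (η i) (B i)ᶜ) ∧ A = ⋃ i, B i := by
  cases h with
  | opens U hU => exact absurd hξ (lt_irrefl _)
  | union ξ hξ A η h1 h2 h => exact ⟨A, η, h1, h2, h, rfl⟩

lemma sig_union_of {ξ : Ordinal.{u}} (hξ : 1 < ξ) {ι : Type u} (hι : #ι ≤ κ) (A : ι → Set X)
    (h : ∀ i, ∃ η, η < ξ ∧ Sig κ η (A i)ᶜ) : Sig κ ξ (⋃ i, A i) := by
  rcases isEmpty_or_nonempty ι with hι0 | hι0
  · rw [iUnion_of_empty]
    have h1 := Sig.union (κ := κ) ξ hξ (fun _ => (∅ : Set X)) (fun _ => 1) (fun _ => le_rfl)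
      (fun _ => hξ) (fun _ => by rw [compl_empty]; exact Sig.opens _ isOpen_univ)
    rwa [iUnion_empty] at h1
  · obtain ⟨e, he⟩ := enum hι
    choose η h2 h3 using h
    have h1 := Sig.union (κ := κ) ξ hξ (fun j => A (e j)) (fun j => η (e j))
      (fun j => (h3 (e j)).one_le) (fun j => h2 (e j)) (fun j => h3 (e j))
    have h4 : (⋃ i, A i) = ⋃ j, A (e j) := (he.iUnion_comp A).symm
    rwa [h4]

lemma sig_open (hX : Good κ X) {ξ : Ordinal.{u}} (hξ : 1 ≤ ξ) {U : Set X} (hU : IsOpen U) :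
    Sig κ ξ U := by
  classical
  rcases hξ.eq_or_lt with rfl | hξ
  · exact Sig.opens U hU
  · obtain ⟨⟨V, hV, hb⟩, -⟩ := hX
    have h1 : U = ⋃ t : Pt κ, (if V t ⊆ U then V t else ∅) := by
      ext x
      simp only [mem_iUnion]
      constructor
      · intro hx
        obtain ⟨t, ht, htU⟩ := hb U hU x hx
        exact ⟨t, by rwa [if_pos htU]⟩
      · rintro ⟨t, ht⟩
        split_ifs at ht with h
        · exact h ht
        · exact absurd ht (notMem_empty _)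
    rw [h1]
    refine sig_union_of hξ mkPt.le _ fun t => ⟨1, hξ, Sig.opens _ ?_⟩
    split_ifs
    · exact (hV t).compl.isOpen
    · rw [compl_empty]
      exact isOpen_univ

lemma sig_mono (hX : Good κ X) {ξ ξ' : Ordinal.{u}} (h : ξ ≤ ξ') {A : Set X} (hA : Sig κ ξ A) :
    Sig κ ξ' A := by
  cases hA with
  | opens U hU => exact sig_open hX h hU
  | union ξ hξ A η h1 h2 h' =>
    exact Sig.union ξ' (hξ.trans_le h) A η h1 (fun i => (h2 i).trans_le h) h'

lemma sig_compl_succ (hκ : κ.IsRegular) {ξ : Ordinal.{u}} {A : Set X} (hA : Sig κ ξ A) :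
    Sig κ (ξ + 1) Aᶜ := by
  have h1 := sig_union_of (κ := κ) (X := X) (ξ := ξ + 1) (Order.lt_add_one_iff.2 hA.one_le)
    (ι := Pt κ) mkPt.le (fun _ => Aᶜ) (fun _ => ⟨ξ, Order.lt_add_one_iff.2 le_rfl, by
      rwa [compl_compl]⟩)
  have := nonemptyPt hκ
  rwa [iUnion_const] at h1

lemma sig_iUnion (hκ : κ.IsRegular) {ξ : Ordinal.{u}} (hξ : 1 ≤ ξ) {ι : Type u} (hι : #ι ≤ κ)
    (A : ι → Set X) (h : ∀ i, Sig κ ξ (A i)) : Sig κ ξ (⋃ i, A i) := by
  rcases hξ.eq_or_lt with rfl | hξ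
  · exact Sig.opens _ (isOpen_iUnion fun i => (h i).isOpen)
  · choose B η h1 h2 h3 h4 using fun i => (h i).exists_union hξ
    have h5 : (⋃ i, A i) = ⋃ p : ι × Pt κ, B p.1 p.2 := by
      rw [iUnion_prod']
      exact iUnion_congr h4
    rw [h5]
    refine sig_union_of hξ ?_ _ fun p => ⟨η p.1 p.2, h2 _ _, h3 _ _⟩
    rw [mk_prod, lift_id, lift_id, mkPt]
    exact (mul_le_mul' hι le_rfl).trans (mul_eq_self hκ.aleph0_le).le

lemma sig_union2 (hκ : κ.IsRegular) {ξ : Ordinal.{u}} {A B : Set X} (hA : Sig κ ξ A)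
    (hB : Sig κ ξ B) : Sig κ ξ (A ∪ B) := by
  have h1 := sig_iUnion hκ hA.one_le (ι := ULift Bool) (by
    rw [mk_uLift, Cardinal.mk_bool, lift_ofNat]
    exact (natCast_lt_aleph0 (n := 2)).le.trans hκ.aleph0_le)
    (fun b => if b.down then A else B) (fun b => by split_ifs <;> assumption)
  have h2 : (⋃ b : ULift.{u} Bool, if b.down then A else B) = A ∪ B := by
    ext x
    simp only [mem_iUnion, ULift.exists, Bool.exists_bool, mem_union]
    simp [or_comm]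
  rwa [h2] at h1

lemma sig_iInter_lt (hX : Good κ X) (hκ : κ.IsRegular) (hpow : Cardinal.powerlt 2 κ = κ)
    {ξ : Ordinal.{u}} (hξ : 1 ≤ ξ) {ι : Type u} (hι : #ι < κ)
    (A : ι → Set X) (h : ∀ i, Sig κ (ξ + 1) (A i)) : Sig κ (ξ + 1) (⋂ i, A i) := by
  have hξ' : 1 < ξ + 1 := Order.lt_add_one_iff.2 hξ
  choose B η h1 h2 h3 h4 using fun i => (h i).exists_union hξ'
  have h5 : (⋂ i, A i) = ⋃ g : ι → Pt κ, ⋂ i, B i (g i) := by
    ext x
    simp only [mem_iInter, mem_iUnion]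
    constructor
    · intro hx
      have : ∀ i, ∃ j, x ∈ B i j := fun i => by
        have := hx i
        rw [h4 i] at this
        exact mem_iUnion.1 this
      choose g hg using this
      exact ⟨g, hg⟩
    · rintro ⟨g, hg⟩ i
      rw [h4 i]
      exact mem_iUnion.2 ⟨g i, hg i⟩
  rw [h5]
  refine sig_union_of hξ' (powBound hκ hpow hι) _ fun g => ⟨ξ, Order.lt_add_one_iff.2 le_rfl, ?_⟩
  rw [compl_iInter]
  exact sig_iUnion hκ hξ hι.le _ fun i => sig_mono hX (Order.lt_add_one_iff.1 (h2 i (g i))) (h3 _ _)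

/-- The sets which are, with their complements, in `Σ⁰_ξ`. -/
def Del (κ : Cardinal.{u}) (ξ : Ordinal.{u}) (A : Set X) : Prop := Sig κ ξ A ∧ Sig κ ξ Aᶜ

lemma Del.compl {ξ : Ordinal.{u}} {A : Set X} (h : Del κ ξ A) : Del κ ξ Aᶜ :=
  ⟨h.2, by rw [compl_compl]; exact h.1⟩

lemma Del.mono (hX : Good κ X) {ξ ξ' : Ordinal.{u}} (hξ : ξ ≤ ξ') {A : Set X} (h : Del κ ξ A) :
    Del κ ξ' A := ⟨sig_mono hX hξ h.1, sig_mono hX hξ h.2⟩

lemma del_of_sig (hX : Good κ X) (hκ : κ.IsRegular) {ξ : Ordinal.{u}} {A : Set X}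
    (h : Sig κ ξ A) : Del κ (ξ + 1) A :=
  ⟨sig_mono hX (Order.lt_add_one_iff.2 le_rfl).le h, sig_compl_succ hκ h⟩

lemma del_of_isClopen (hX : Good κ X) {ξ : Ordinal.{u}} (hξ : 1 ≤ ξ) {A : Set X}
    (h : IsClopen A) : Del κ ξ A :=
  ⟨sig_open hX hξ h.isOpen, sig_open hX hξ h.compl.isOpen⟩

lemma del_iUnion (hX : Good κ X) (hκ : κ.IsRegular) (hpow : Cardinal.powerlt 2 κ = κ)
    {ξ : Ordinal.{u}} (hξ : 1 ≤ ξ) {ι : Type u} (hι : #ι < κ)
    (A : ι → Set X) (h : ∀ i, Del κ (ξ + 1) (A i)) : Del κ (ξ + 1) (⋃ i, A i) := by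
  refine ⟨sig_iUnion hκ (hξ.trans (Order.lt_add_one_iff.2 le_rfl).le) hι.le _ fun i => (h i).1, ?_⟩
  rw [compl_iUnion]
  exact sig_iInter_lt hX hκ hpow hξ hι _ fun i => (h i).2

lemma del_iInter (hX : Good κ X) (hκ : κ.IsRegular) (hpow : Cardinal.powerlt 2 κ = κ)
    {ξ : Ordinal.{u}} (hξ : 1 ≤ ξ) {ι : Type u} (hι : #ι < κ)
    (A : ι → Set X) (h : ∀ i, Del κ (ξ + 1) (A i)) : Del κ (ξ + 1) (⋂ i, A i) := by
  have h1 := (del_iUnion hX hκ hpow hξ hι _ fun i => (h i).compl).compl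
  rwa [compl_iUnion, iInter_congr fun i => compl_compl (A i)] at h1

lemma mkBool (hκ : κ.IsRegular) : #(ULift.{u} Bool) < κ := by
  rw [mk_uLift, Cardinal.mk_bool, lift_ofNat]
  exact (natCast_lt_aleph0 (n := 2)).trans_le hκ.aleph0_le

lemma del_union (hX : Good κ X) (hκ : κ.IsRegular) (hpow : Cardinal.powerlt 2 κ = κ)
    {ξ : Ordinal.{u}} (hξ : 1 ≤ ξ) {A B : Set X} (hA : Del κ (ξ + 1) A) (hB : Del κ (ξ + 1) B) :
    Del κ (ξ + 1) (A ∪ B) := by
  have h1 := del_iUnion hX hκ hpow hξ (mkBool hκ)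
    (fun b => if b.down then A else B) (fun b => by split_ifs <;> assumption)
  have h2 : (⋃ b : ULift.{u} Bool, if b.down then A else B) = A ∪ B := by
    ext x
    simp only [mem_iUnion, ULift.exists, Bool.exists_bool, mem_union]
    simp [or_comm]
  rwa [h2] at h1

lemma del_inter (hX : Good κ X) (hκ : κ.IsRegular) (hpow : Cardinal.powerlt 2 κ = κ)
    {ξ : Ordinal.{u}} (hξ : 1 ≤ ξ) {A B : Set X} (hA : Del κ (ξ + 1) A) (hB : Del κ (ξ + 1) B) :
    Del κ (ξ + 1) (A ∩ B) := by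
  have h1 := (del_union hX hκ hpow hξ hA.compl hB.compl).compl
  rwa [compl_union, compl_compl, compl_compl] at h1

lemma isClopen_iInter (hX : Good κ X) {ι : Type u} (hι : #ι < κ)
    (A : ι → Set X) (h : ∀ i, IsClopen (A i)) : IsClopen (⋂ i, A i) :=
  ⟨isClosed_iInter fun i => (h i).isClosed, hX.inter ι hι A fun i => (h i).isOpen⟩

lemma isClopen_iUnion (hX : Good κ X) {ι : Type u} (hι : #ι < κ)
    (A : ι → Set X) (h : ∀ i, IsClopen (A i)) : IsClopen (⋃ i, A i) := by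
  have h1 := (isClopen_iInter hX hι _ fun i => (h i).compl).compl
  rwa [compl_iInter, iUnion_congr fun i => compl_compl (A i)] at h1

end sig

/-- A cofinal sequence of regular length in a well order without a greatest element. -/
lemma cofSeq (I : Type u) [LinearOrder I] [WellFoundedLT I] [Nonempty I] [NoMaxOrder I] :
    (Order.cof I).IsRegular ∧ ∃ c : Pt (Order.cof I) → I, StrictMono c ∧ ∀ a, ∃ i, a ≤ c i := by
  constructor
  · refine ⟨Order.aleph0_le_cof, ?_⟩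
    have h1 : (Order.cof I) = (Ordinal.type (α := I) (· < ·)).cof := (Ordinal.cof_type I).symm
    rw [h1, Ordinal.cof_ord_cof]
  · obtain ⟨s, hs, hs'⟩ := Ordinal.exists_ord_cof_eq I
    rw [← Ordinal.type_toType (Order.cof I).ord] at hs'
    obtain ⟨f⟩ := Ordinal.type_eq.1 hs'.symm
    let g := OrderIso.ofRelIsoLT f
    refine ⟨fun i => (g i).1, fun i j hij => g.strictMono hij, fun a => ?_⟩
    obtain ⟨b, hb, hab⟩ := hs a
    refine ⟨g.symm ⟨b, hb⟩, ?_⟩
    simpa using hab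

end V11249.GBaire
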