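import Pool.Agent.V11249.GBaireUniv

set_option autoImplicit false

open Cardinal Set Filter Topology

universe u

namespace V11249.GBaire

/-- The class `M_ξ(X, Y)`: the functions for which preimages of open sets are in `Σ⁰_ξ`. -/
def MClass (κ : Cardinal.{u}) (ξ : Ordinal.{u}) (X Y : Type u) [TopologicalSpace X]
    [TopologicalSpace Y] : Set (X → Y) := {f | ∀ U : Set Y, IsOpen U → Sig κ ξ (f ⁻¹' U)}

/-- The class `M_{<ξ}(X, Y)`: the union of the classes `M_η(X, Y)`, `1 ≤ η < ξ`. -/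
def MLt (κ : Cardinal.{u}) (ξ : Ordinal.{u}) (X Y : Type u) [TopologicalSpace X]
    [TopologicalSpace Y] : Set (X → Y) := {f | ∃ η, 1 ≤ η ∧ η < ξ ∧ f ∈ MClass κ η X Y}

/-- The pointwise limits of sequences of length `μ` of functions in `F`. -/
def LimSet (μ : Cardinal.{u}) {X Y : Type u} [TopologicalSpace Y] (F : Set (X → Y)) :
    Set (X → Y) :=
  {f | ∃ g : μ.ord.ToType → X → Y, (∀ i, g i ∈ F) ∧
    ∀ x, Tendsto (fun i => g i x) atTop (𝓝 (f x))}

/-- The special limits of length `μ`: there is an increasing covering of `X` by sets `Z i` in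
`Σ⁰_ξ`, `i < μ`, such that the `j`-th function equals the limit on `Z i` for all `j ≥ i`. -/
def HatLim (κ : Cardinal.{u}) (ξ : Ordinal.{u}) (μ : Cardinal.{u}) {X Y : Type u}
    [TopologicalSpace X] (F : Set (X → Y)) : Set (X → Y) :=
  {f | ∃ (g : μ.ord.ToType → X → Y) (Z : μ.ord.ToType → Set X), (∀ i, g i ∈ F) ∧
    (∀ i, Sig κ ξ (Z i)) ∧ (∀ i j, i ≤ j → Z i ⊆ Z j) ∧ (⋃ i, Z i = Set.univ) ∧
    ∀ i j, i ≤ j → ∀ x ∈ Z i, g j x = f x}

/-- A function `c` of length `cf(ξ)` cofinal in the limit ordinal `ξ`. -/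
lemma cofOrd {ξ : Ordinal.{u}} (hξ : Order.IsSuccLimit ξ) :
    (ξ.cof).IsRegular ∧ ∃ c : Pt ξ.cof → Ordinal.{u}, StrictMono c ∧ (∀ i, c i < ξ) ∧
      (∀ i, 1 ≤ c i) ∧ ∀ η < ξ, ∃ i, η ≤ c i := by
  have hne : Nonempty ξ.ToType := by
    rw [Ordinal.nonempty_toType_iff]
    exact hξ.ne_bot
  have hnm : NoMaxOrder ξ.ToType := by
    rw [← Ordinal.isSuccPrelimit_type_lt_iff, Ordinal.type_toType]
    exact hξ.isSuccPrelimit
  have hcof : Order.cof ξ.ToType = ξ.cof := Ordinal.cof_toType ξ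
  have h := cofSeq ξ.ToType
  rw [hcof] at h
  obtain ⟨h1, c, hc, hcc⟩ := h
  refine ⟨h1, fun i => Ordinal.typein (α := ξ.ToType) (· < ·) (c i) + 1, ?_, ?_, ?_, ?_⟩
  · intro i j hij
    have h2 := (Ordinal.typein_lt_typein (α := ξ.ToType) (· < ·)).2 (hc hij)
    exact Order.lt_add_one_iff.2 (Order.add_one_le_iff.2 h2)
  · intro i
    exact hξ.add_one_lt (Ordinal.typein_lt_self _)
  · intro i
    exact le_add_self
  · intro η hη
    have h3 : η < Ordinal.type (α := ξ.ToType) (· < ·) := by rwa [Ordinal.type_toType]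
    obtain ⟨a, ha⟩ := Ordinal.typein_surj _ h3
    obtain ⟨i, hi⟩ := hcc a
    refine ⟨i, ?_⟩
    rw [← ha]
    refine le_trans ?_ le_self_add
    exact (Ordinal.typein_le_typein _).2 (not_lt.2 hi)

end V11249.GBaire
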