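import Pool.Agent.V11249.GBaire

set_option autoImplicit false

open Cardinal Set Filter Topology

universe u

namespace V11249.GBaire

variable {κ : Cardinal.{u}}

lemma continuous_GB (hκ : κ.IsRegular) {f : GB κ → GB κ}
    (h : ∀ x a, ∃ b, ∀ y ∈ nb x b, f y ∈ nb (f x) a) : Continuous f := by
  refine continuous_def.2 fun U hU => (isOpen_iff hκ _).2 fun x hx => ?_
  obtain ⟨a, ha⟩ := (isOpen_iff hκ U).1 hU _ hx
  obtain ⟨b, hb⟩ := h x a
  exact ⟨b, fun y hy => ha (hb y hy)⟩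

/-- an enumeration of the basic sets and the empty set -/
lemma basicEnum' (hκ : κ.IsRegular) (hpow : Cardinal.powerlt 2 κ = κ) :
    ∃ E : Pt κ → Set (GB κ), (∀ t, IsOpen (E t)) ∧ (∃ t, E t = ∅) ∧
      ∀ U, IsOpen U → ∀ x ∈ U, ∃ t, x ∈ E t ∧ E t ⊆ U := by
  obtain ⟨e, he⟩ := basicEnum hκ hpow
  have h1 : #(Option (Pt κ)) ≤ κ := by
    rw [mk_option, mkPt]
    exact (add_one_eq hκ.aleph0_le).le
  obtain ⟨d, hd⟩ := enum h1
  refine ⟨fun t => (d t).elim ∅ (fun s => nb (e s).1 (e s).2), fun t => ?_, ?_, ?_⟩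
  · show IsOpen ((d t).elim ∅ (fun s => nb (e s).1 (e s).2))
    cases d t with
    | none => exact isOpen_empty
    | some s => exact isOpen_nb _ _
  · obtain ⟨t, ht⟩ := hd none
    exact ⟨t, by simp [ht]⟩
  · intro U hU x hx
    obtain ⟨a, ha⟩ := (isOpen_iff hκ U).1 hU x hx
    obtain ⟨s, hs, hs2⟩ := he x a
    obtain ⟨t, ht⟩ := hd (some s)
    refine ⟨t, ?_, ?_⟩
    · simp only [ht, Option.elim]
      rw [hs, hs2]
      exact self_mem_nb _ _
    · simp only [ht, Option.elim]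
      rw [hs, hs2]
      exact ha

lemma goodGB (hκ : κ.IsRegular) (hpow : Cardinal.powerlt 2 κ = κ) : Good κ (GB κ) := by
  obtain ⟨e, he⟩ := basicEnum hκ hpow
  refine ⟨⟨fun t => nb (e t).1 (e t).2, fun t => isClopen_nb hκ _ _, fun U hU x hx => ?_⟩, ?_⟩
  · obtain ⟨a, ha⟩ := (isOpen_iff hκ U).1 hU x hx
    obtain ⟨t, ht, ht2⟩ := he x a
    subst ht
    refine ⟨t, ?_, ?_⟩
    · show x ∈ nb (e t).1 (e t).2
      rw [ht2]
      exact self_mem_nb _ _
    · show nb (e t).1 (e t).2 ⊆ U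
      rw [ht2]
      exact ha
  · intro ι hι A hA
    rw [isOpen_iff hκ]
    intro x hx
    have h1 : ∀ i, ∃ a, nb x a ⊆ A i := fun i =>
      (isOpen_iff hκ _).1 (hA i) x (mem_iInter.1 hx i)
    choose a ha using h1
    obtain ⟨b, hb⟩ := bdd' hκ hι a
    exact ⟨b, subset_iInter fun i => (nb_anti x (hb i).le).trans (ha i)⟩

/-- Universal sets. -/
lemma universal (hκ : κ.IsRegular) (hpow : Cardinal.powerlt 2 κ = κ) (ξ : Ordinal.{u}) :
    1 ≤ ξ → ξ < (Order.succ κ).ord → ∃ u : GB κ → Set (GB κ),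
      (∀ A : Set (GB κ), Sig κ ξ A → ∃ y, u y = A) ∧
      ∀ φ ψ : GB κ → GB κ, Continuous φ → Continuous ψ → Sig κ ξ {x | φ x ∈ u (ψ x)} := by
  classical
  induction ξ using WellFoundedLT.induction with
  | _ ξ ih =>
  intro h1 hξκ
  rcases h1.eq_or_lt with rfl | h1
  · obtain ⟨E, hE, ⟨t0, ht0⟩, hb⟩ := basicEnum' hκ hpow
    refine ⟨fun y => ⋃ j, E (y j), ?_, ?_⟩
    · intro A hA
      have hA' := hA.isOpen
      have h2 : ∀ j, ∃ t, E t = if E j ⊆ A then E j else ∅ := by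
        intro j
        by_cases h : E j ⊆ A
        · exact ⟨j, by rw [if_pos h]⟩
        · exact ⟨t0, by rw [if_neg h, ht0]⟩
      choose y hy using h2
      refine ⟨y, ?_⟩
      ext x
      simp only [mem_iUnion]
      constructor
      · rintro ⟨j, hj⟩
        rw [hy j] at hj
        split_ifs at hj with h
        · exact h hj
        · exact absurd hj (notMem_empty _)
      · intro hx
        obtain ⟨t, ht, htA⟩ := hb A hA' x hx
        exact ⟨t, by rwa [hy t, if_pos htA]⟩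
    · intro φ ψ hφ hψ
      refine Sig.opens _ ?_
      have h2 : {x | φ x ∈ ⋃ j, E (ψ x j)} =
          ⋃ j, ⋃ t, (ψ ⁻¹' {y : GB κ | y j = t}) ∩ (φ ⁻¹' E t) := by
        ext x
        simp only [mem_iUnion, mem_ofPred_eq, mem_inter_iff, mem_preimage]
        constructor
        · rintro ⟨j, hj⟩
          exact ⟨j, _, rfl, hj⟩
        · rintro ⟨j, t, h, hj⟩
          refine ⟨j, ?_⟩
          rw [h]
          exact hj
      rw [h2]
      refine isOpen_iUnion fun j => isOpen_iUnion fun t => ((?_ : IsOpen _).preimage hψ).inter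
        ((hE t).preimage hφ)
      refine (isOpen_iff hκ _).2 fun x hx => ?_
      obtain ⟨a, ha⟩ := exGt hκ j
      refine ⟨a, fun y hy => ?_⟩
      have := hy j ha
      rw [mem_ofPred_eq] at hx ⊢
      rw [this, hx]
  · -- the list of smaller indices
    have hcard : #ξ.ToType ≤ κ := by
      rw [mk_toType]
      exact Order.lt_succ_iff.1 (lt_ord.1 hξκ)
    have hne : Nonempty ξ.ToType := by
      rw [Ordinal.nonempty_toType_iff]
      exact (zero_lt_one.trans h1).ne'
    obtain ⟨e, he⟩ := enum hcard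
    let o : Pt κ → Ordinal.{u} := fun j => max 1 (Ordinal.typein (α := ξ.ToType) (· < ·) (e j))
    have ho1 : ∀ j, 1 ≤ o j := fun j => le_max_left _ _
    have ho2 : ∀ j, o j < ξ := fun j => max_lt h1 (Ordinal.typein_lt_self _)
    have ho3 : ∀ η, 1 ≤ η → η < ξ → ∃ j, o j = η := by
      intro η h1 h2
      have h3 : η < Ordinal.type (α := ξ.ToType) (· < ·) := by rwa [Ordinal.type_toType]
      obtain ⟨i, hi⟩ := Ordinal.typein_surj _ h3
      obtain ⟨j, hj⟩ := he i
      refine ⟨j, ?_⟩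
      simp only [o, hj, hi]
      exact max_eq_right h1
    choose U hU1 hU2 using fun j => ih (o j) (ho2 j) (ho1 j) ((ho2 j).trans hξκ)
    have hequiv : Nonempty (Pt κ ≃ (Pt κ × Pt κ) × Pt κ) := by
      rw [← Cardinal.eq, mk_prod, mk_prod]
      simp only [lift_id, mkPt]
      rw [mul_eq_self hκ.aleph0_le, mul_eq_self hκ.aleph0_le]
    obtain ⟨p⟩ := hequiv
    let D : Pt κ × Pt κ → GB κ → GB κ := fun q y k => y (p.symm (q, k))
    have hD : ∀ q, Continuous (D q) := by
      intro q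
      refine continuous_GB hκ fun x a => ?_
      obtain ⟨b, hb⟩ := bdd' hκ (mkIio a) (fun k : Iio a => p.symm (q, k.1))
      exact ⟨b, fun y hy k hk => hy _ (hb ⟨k, hk⟩)⟩
    refine ⟨fun y => ⋃ q : Pt κ × Pt κ, (U q.2 (D q y))ᶜ, ?_, ?_⟩
    · intro A hA
      obtain ⟨B, η, h2, h3, h4, rfl⟩ := hA.exists_union h1
      have h5 : ∀ q : Pt κ × Pt κ, ∃ c, U q.2 c = if o q.2 = η q.1 then (B q.1)ᶜ else univ := by
        intro q
        apply hU1
        split_ifs with h
        · rw [h]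
          exact h4 q.1
        · exact sig_mono (goodGB hκ hpow) (ho1 _) (Sig.opens _ isOpen_univ)
      choose c hc using h5
      let y : GB κ := fun k => c (p k).1 (p k).2
      have hy : ∀ q, D q y = c q := by
        intro q
        funext k
        simp only [D, y, Equiv.apply_symm_apply]
      refine ⟨y, ?_⟩
      ext x
      simp only [mem_iUnion, hy, hc]
      constructor
      · rintro ⟨q, hq⟩
        refine ⟨q.1, ?_⟩
        split_ifs at hq with h
        · rwa [compl_compl] at hq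
        · exact absurd (mem_univ _) hq
      · rintro ⟨i, hi⟩
        obtain ⟨j, hj⟩ := ho3 (η i) (h2 i) (h3 i)
        refine ⟨(i, j), ?_⟩
        rw [if_pos hj, compl_compl]
        exact hi
    · intro φ ψ hφ hψ
      have h6 : {x | φ x ∈ ⋃ q : Pt κ × Pt κ, (U q.2 (D q (ψ x)))ᶜ} =
          ⋃ q : Pt κ × Pt κ, {x | φ x ∈ U q.2 (D q (ψ x))}ᶜ := by
        ext x
        simp only [mem_iUnion, mem_ofPred_eq, mem_compl_iff]
      rw [h6]
      refine sig_union_of h1 ?_ _ fun q => ⟨o q.2, ho2 _, ?_⟩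
      · rw [mk_prod, lift_id, mkPt]
        exact (mul_eq_self hκ.aleph0_le).le
      · rw [compl_compl]
        exact hU2 q.2 φ (fun x => D q (ψ x)) hφ ((hD q).comp hψ)

/-- The hierarchy does not collapse. -/
lemma noCollapse (hκ : κ.IsRegular) (hpow : Cardinal.powerlt 2 κ = κ) (ξ : Ordinal.{u})
    (h1 : 1 ≤ ξ) (h2 : ξ < (Order.succ κ).ord) : ∃ A : Set (GB κ), Sig κ ξ A ∧ ¬ Sig κ ξ Aᶜ := by
  obtain ⟨u, hu1, hu2⟩ := universal hκ hpow ξ h1 h2
  refine ⟨{x | x ∈ u x}, hu2 id id continuous_id continuous_id, fun h => ?_⟩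
  obtain ⟨y, hy⟩ := hu1 _ h
  have h3 : y ∈ u y ↔ y ∉ u y := by
    conv_lhs => rw [hy]
    rfl
  tauto

end V11249.GBaire
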