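import Mathlib

set_option autoImplicit false

namespace Pool.Agent.V11249.Gec

open Set Cardinal

universe u v

section

variable {V : Type u} {C : Type v} (κ : V → V → C)

/-- Absolute homogeneity. -/
def AbsHom : Prop :=
  ∀ (A : Set V) (f : A → V), (∀ x y : A, κ (f x) (f y) = κ x y) →
    ∃ g : V ≃ V, (∀ x y, κ (g x) (g y) = κ x y) ∧ ∀ x : A, g x = f x

variable {κ}

theorem AbsHom.extend (h : AbsHom κ) (A : Set V) (f : V → V)
    (hf : ∀ x ∈ A, ∀ y ∈ A, κ (f x) (f y) = κ x y) :
    ∃ g : V ≃ V, (∀ x y, κ (g x) (g y) = κ x y) ∧ ∀ x ∈ A, g x = f x := by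
  obtain ⟨g, hg, hg'⟩ := h A (fun x => f x) (fun x y => hf x x.2 y y.2)
  exact ⟨g, hg, fun x hx => hg' ⟨x, hx⟩⟩

variable {e : C}

/-- No infinite monochromatic clique. -/
theorem noMono (h : AbsHom κ) (he : ∀ x y, κ x y = e ↔ x = y) (c : C)
    (A : Set V) (hA : A.Infinite) (hAc : ∀ x ∈ A, ∀ y ∈ A, x ≠ y → κ x y = c) : False := by
  let P : Set (Set V) := {S | ∀ x ∈ S, ∀ y ∈ S, x ≠ y → κ x y = c}
  obtain ⟨M, hAM, hM⟩ := zorn_subset_nonempty P (by
    intro ch hch hchain hne
    refine ⟨⋃₀ ch, ?_, fun s hs => subset_sUnion_of_mem hs⟩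
    rintro x ⟨s, hs, hxs⟩ y ⟨t, ht, hyt⟩ hxy
    rcases hchain.total hs ht with hst | hst
    · exact hch ht x (hst hxs) y hyt hxy
    · exact hch hs x hxs y (hst hyt) hxy) A hAc
  have hMinf : M.Infinite := hA.mono hAM
  obtain ⟨a, ha⟩ := hMinf.nonempty
  have hinf : (M \ {a}).Infinite := hMinf.sdiff (finite_singleton a)
  have hcard : #(M \ {a} : Set V) = #M := by
    have h1 : insert a (M \ {a}) = M := by
      rw [insert_sdiff_singleton, insert_eq_of_mem ha]
    have h2 : #(insert a (M \ {a}) : Set V) = #(M \ {a} : Set V) + 1 :=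
      Cardinal.mk_insert (by simp)
    rw [h1] at h2
    have h3 : ℵ₀ ≤ #(M \ {a} : Set V) := by
      rw [← Set.infinite_coe_iff] at hinf
      exact Cardinal.aleph0_le_mk _
    rw [h2, Cardinal.add_one_eq h3]
  obtain ⟨φ⟩ := Cardinal.eq.mp hcard
  obtain ⟨g, hg, hg'⟩ := h (M \ {a}) (fun x => (φ x : V)) (by
    intro x y
    by_cases hxy : x = y
    · subst hxy
      rw [(he _ _).mpr rfl, (he _ _).mpr rfl]
    · rw [hM.prop _ (φ x).2 _ (φ y).2 (fun h => hxy (φ.injective (Subtype.ext h))),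
        hM.prop _ x.2.1 _ y.2.1 (fun h => hxy (Subtype.ext h))])
  -- `g a` is a new member of the clique
  have hgaM : g a ∉ M := by
    intro hmem
    obtain ⟨x, hx⟩ := φ.surjective ⟨g a, hmem⟩
    have h1 : g x = g a := by
      rw [hg' x, hx]
    exact x.2.2 (g.injective h1)
  have hnew : ∀ m ∈ M, κ (g a) m = c ∧ κ m (g a) = c := by
    intro m hm
    obtain ⟨x, hx⟩ := φ.surjective ⟨m, hm⟩
    have h1 : g x = m := by rw [hg' x, hx]
    have hxa : (x : V) ≠ a := x.2.2
    constructor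
    · rw [← h1, hg]
      exact hM.prop a ha x x.2.1 (Ne.symm hxa)
    · rw [← h1, hg]
      exact hM.prop x x.2.1 a ha hxa
  have hins : insert (g a) M ∈ P := by
    rintro x (rfl | hx) y (rfl | hy) hxy
    · exact absurd rfl hxy
    · exact (hnew y hy).1
    · exact (hnew x hx).2
    · exact hM.prop x hx y hy hxy
  have hsub := hM.le_of_ge hins (subset_insert (g a) M)
  exact hgaM (hsub (mem_insert (g a) M))

/-- Closing off: a countable set realising all types over its finite subsets. -/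
theorem exists_closed (he : ∀ x y, κ x y = e ↔ x = y)
    (hpal : {c | ∃ x y, x ≠ y ∧ κ x y = c}.Countable) :
    ∃ D : Set V, D.Countable ∧ ∀ A : Finset V, (A : Set V) ⊆ D → ∀ z : V, ∃ z' ∈ D,
      ∀ a ∈ A, κ z' a = κ z a := by
  classical
  have hR : ∀ A : Finset V, ∃ R : Set V, R.Countable ∧ ∀ z : V, ∃ z' ∈ R, ∀ a ∈ A, κ z' a = κ z a := by
    intro A
    let K : Set C := insert e {c | ∃ x y, x ≠ y ∧ κ x y = c}
    have hK : K.Countable := hpal.insert e
    have : Countable K := hK.to_subtype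
    let t : V → (A → K) := fun z a => ⟨κ z a, by
      by_cases h : z = a
      · left; exact (he _ _).mpr h
      · right; exact ⟨z, a, h, rfl⟩⟩
    by_cases hne : Nonempty V
    · let r : (A → K) → V := fun τ => if h : ∃ z, t z = τ then h.choose else Classical.arbitrary V
      refine ⟨range r, countable_range r, ?_⟩
      intro z
      refine ⟨r (t z), mem_range_self _, ?_⟩
      intro a ha
      have hex : ∃ z', t z' = t z := ⟨z, rfl⟩
      have h1 : t (r (t z)) = t z := by
        simp only [r]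
        rw [dif_pos hex]
        exact hex.choose_spec
      exact congrArg Subtype.val (congrFun h1 ⟨a, ha⟩)
    · exact ⟨∅, countable_empty, fun z => absurd ⟨z⟩ hne⟩
  choose R hRc hR using hR
  let stp : Set V → Set V := fun S =>
    S ∪ ⋃ A : Finset ↥S, R (A.image Subtype.val)
  let D : ℕ → Set V := fun n => stp^[n] ∅
  have hDs : ∀ n, D (n + 1) = stp (D n) := fun n => Function.iterate_succ_apply' stp n ∅
  have hmono : Monotone D := monotone_nat_of_le_succ (fun n => by
    rw [hDs]; exact subset_union_left)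
  have hcnt : ∀ n, (D n).Countable := by
    intro n
    induction n with
    | zero => exact countable_empty
    | succ n ih =>
      rw [hDs]
      have : Countable ↥(D n) := ih.to_subtype
      exact ih.union (countable_iUnion (fun A => hRc _))
  refine ⟨⋃ n, D n, countable_iUnion hcnt, ?_⟩
  intro A hA z
  have hn : ∃ n, (A : Set V) ⊆ D n := by
    induction A using Finset.induction with
    | empty => exact ⟨0, by simp⟩
    | insert a A ha ih =>
      obtain ⟨n, hn⟩ := ih (fun x hx => hA (by simp at hx ⊢; exact Or.inr hx))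
      obtain ⟨m, hm⟩ := mem_iUnion.mp (hA (show a ∈ ((insert a A : Finset V) : Set V) by simp))
      refine ⟨max n m, ?_⟩
      intro x hx
      simp only [Finset.coe_insert, mem_insert_iff] at hx
      rcases hx with rfl | hx
      · exact hmono (le_max_right n m) hm
      · exact hmono (le_max_left n m) (hn hx)
  obtain ⟨n, hn⟩ := hn
  obtain ⟨z', hz', hz''⟩ := hR A z
  refine ⟨z', ?_, hz''⟩
  refine mem_iUnion.mpr ⟨n + 1, ?_⟩
  rw [hDs]
  clear hA hz''
  lift A to Finset ↥(D n) using hn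
  exact Or.inr (mem_iUnion.mpr ⟨A, hz'⟩)

/-- Finite partial morphisms inside `D`. -/
structure State (κ : V → V → C) (D : Set V) where
  A : Finset V
  f : V → V
  hA : ∀ a ∈ A, a ∈ D
  hf : ∀ a ∈ A, f a ∈ D
  pm : ∀ a ∈ A, ∀ b ∈ A, κ (f a) (f b) = κ a b

/-- Extension of states. -/
def State.Ext {D : Set V} (S S' : State κ D) : Prop :=
  (∀ a ∈ S.A, a ∈ S'.A) ∧ ∀ a ∈ S.A, S'.f a = S.f a

theorem State.Ext.trans {D : Set V} {S S' S'' : State κ D} (h : S.Ext S') (h' : S'.Ext S'') :
    S.Ext S'' :=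
  ⟨fun a ha => h'.1 a (h.1 a ha), fun a ha => (h'.2 a (h.1 a ha)).trans (h.2 a ha)⟩

theorem State.Ext.refl {D : Set V} (S : State κ D) : S.Ext S := ⟨fun _ h => h, fun _ _ => rfl⟩

open Classical in
/-- Adding one pair. -/
theorem State.add {D : Set V} (hs : ∀ x y, κ x y = κ y x) (he : ∀ x y, κ x y = e ↔ x = y)
    (S : State κ D) (d w : V) (hd : d ∈ D) (hw : w ∈ D) (hdA : d ∉ S.A)
    (hdw : ∀ a ∈ S.A, κ w (S.f a) = κ d a) :
    ∃ S' : State κ D, S.Ext S' ∧ d ∈ S'.A ∧ S'.f d = w := by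
  have hne : ∀ a ∈ S.A, a ≠ d := fun a ha h => hdA (h ▸ ha)
  refine ⟨⟨insert d S.A, Function.update S.f d w, ?_, ?_, ?_⟩, ⟨?_, ?_⟩, ?_, ?_⟩
  · intro a ha
    rcases Finset.mem_insert.mp ha with rfl | ha
    · exact hd
    · exact S.hA a ha
  · intro a ha
    rcases Finset.mem_insert.mp ha with rfl | ha
    · rw [Function.update_self]; exact hw
    · rw [Function.update_of_ne (hne a ha)]; exact S.hf a ha
  · intro a ha b hb
    rcases Finset.mem_insert.mp ha with ha' | ha'
    · rcases Finset.mem_insert.mp hb with hb' | hb'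
      · rw [ha', hb', (he _ _).mpr rfl, (he _ _).mpr rfl]
      · rw [ha', Function.update_self, Function.update_of_ne (hne b hb')]
        exact hdw b hb'
    · rcases Finset.mem_insert.mp hb with hb' | hb'
      · rw [hb', Function.update_self, Function.update_of_ne (hne a ha'), hs, hs a]
        exact hdw a ha'
      · rw [Function.update_of_ne (hne a ha'), Function.update_of_ne (hne b hb')]
        exact S.pm a ha' b hb'
  · intro a ha
    simp [ha]
  · intro a ha
    exact Function.update_of_ne (hne a ha) _ _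
  · simp
  · exact Function.update_self (β := fun _ => V) d w S.f

section closed

variable {D : Set V}

/-- Adding a domain point. -/
theorem State.addDom (h : AbsHom κ) (hs : ∀ x y, κ x y = κ y x) (he : ∀ x y, κ x y = e ↔ x = y)
    (hD : ∀ A : Finset V, (A : Set V) ⊆ D → ∀ z : V, ∃ z' ∈ D, ∀ a ∈ A, κ z' a = κ z a)
    (S : State κ D) (d : V) (hd : d ∈ D) :
    ∃ S' : State κ D, S.Ext S' ∧ d ∈ S'.A := by
  classical
  by_cases hdA : d ∈ S.A
  · exact ⟨S, State.Ext.refl S, hdA⟩
  · obtain ⟨g, hg, hg'⟩ := h.extend (S.A : Set V) S.f (fun x hx y hy => S.pm x hx y hy)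
    obtain ⟨w, hw, hw'⟩ := hD (S.A.image S.f) (by
      intro x hx
      simp only [Finset.coe_image, mem_image] at hx
      obtain ⟨a, ha, rfl⟩ := hx
      exact S.hf a ha) (g d)
    obtain ⟨S', h1, h2, _⟩ := S.add hs he d w hd hw hdA (by
      intro a ha
      rw [hw' (S.f a) (Finset.mem_image_of_mem _ ha), ← hg' a ha, hg])
    exact ⟨S', h1, h2⟩

/-- Two points of `D` with the type of `y` over a finite set, told apart by `y`. -/
theorem exists_split (h : AbsHom κ) (hs : ∀ x y, κ x y = κ y x) (he : ∀ x y, κ x y = e ↔ x = y)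
    (hD : ∀ A : Finset V, (A : Set V) ⊆ D → ∀ z : V, ∃ z' ∈ D, ∀ a ∈ A, κ z' a = κ z a)
    (y : V) (hy : y ∉ D) (A : Finset V) (hA : (A : Set V) ⊆ D) :
    ∃ d0 ∈ D, ∃ d1 ∈ D, (∀ a ∈ A, κ d0 a = κ y a) ∧ (∀ a ∈ A, κ d1 a = κ y a) ∧
      κ y d0 ≠ κ y d1 := by
  classical
  by_contra hcon
  push Not at hcon
  obtain ⟨ds, hds, hds'⟩ := hD A hA y
  let c := κ y ds
  have hc : ∀ d ∈ D, (∀ a ∈ A, κ d a = κ y a) → κ y d = c := fun d hd hda =>
    hcon d hd ds hds hda hds'
  have hce : c ≠ e := fun hce => hy (((he _ _).mp hce) ▸ hds)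
  let P : Set (Set V) := {S | S ⊆ D ∧ (∀ x ∈ S, ∀ a ∈ A, κ x a = κ y a) ∧
    ∀ x ∈ S, ∀ z ∈ S, x ≠ z → κ x z = c}
  obtain ⟨M, _, hM⟩ := zorn_subset_nonempty P (by
    intro ch hch hchain hne
    refine ⟨⋃₀ ch, ⟨?_, ?_, ?_⟩, fun s hs => subset_sUnion_of_mem hs⟩
    · exact sUnion_subset (fun s hs => (hch hs).1)
    · rintro x ⟨s, hs, hxs⟩
      exact (hch hs).2.1 x hxs
    · rintro x ⟨s, hs, hxs⟩ z ⟨t, ht, hzt⟩ hxz
      rcases hchain.total hs ht with hst | hst
      · exact (hch ht).2.2 x (hst hxs) z hzt hxz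
      · exact (hch hs).2.2 x hxs z (hst hzt) hxz) ∅ ⟨empty_subset _, by simp, by simp⟩
  obtain ⟨hMD, hMt, hMc⟩ := hM.prop
  refine noMono h he c M ?_ hMc
  intro hfin
  obtain ⟨z, hz, hz'⟩ := hD (A ∪ hfin.toFinset) (by
    intro x hx
    simp only [Finset.coe_union, Finite.coe_toFinset, mem_union] at hx
    rcases hx with hx | hx
    · exact hA hx
    · exact hMD hx) y
  have hzA : ∀ a ∈ A, κ z a = κ y a := fun a ha => hz' a (Finset.mem_union_left _ ha)
  have hzM : ∀ m ∈ M, κ z m = c := fun m hm => by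
    rw [hz' m (Finset.mem_union_right _ (hfin.mem_toFinset.mpr hm))]
    exact hc m (hMD hm) (hMt m hm)
  have hzn : z ∉ M := fun hm => hce ((hzM z hm).symm.trans ((he _ _).mpr rfl))
  have hins : insert z M ∈ P := by
    refine ⟨insert_subset hz hMD, ?_, ?_⟩
    · rintro x (rfl | hx)
      · exact hzA
      · exact hMt x hx
    · rintro x (rfl | hx) w (rfl | hw) hxw
      · exact absurd rfl hxw
      · exact hzM w hw
      · rw [hs]; exact hzM x hx
      · exact hMc x hx w hw hxw
  exact hzn (hM.le_of_ge hins (subset_insert z M) (mem_insert z M))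

/-- The splitting step. -/
theorem State.split (h : AbsHom κ) (hs : ∀ x y, κ x y = κ y x) (he : ∀ x y, κ x y = e ↔ x = y)
    (hD : ∀ A : Finset V, (A : Set V) ⊆ D → ∀ z : V, ∃ z' ∈ D, ∀ a ∈ A, κ z' a = κ z a)
    (y : V) (hy : y ∉ D) (S : State κ D) (d : V) (hd : d ∈ D) :
    ∃ T : Bool → State κ D, (∀ b, S.Ext (T b)) ∧ (∀ b, d ∈ (T b).A) ∧
      ∃ d0 ∈ (T true).A, ∃ d1 ∈ (T false).A, (T true).f d0 = (T false).f d1 ∧ κ y d0 ≠ κ y d1 := by
  classical
  obtain ⟨d0, hd0, d1, hd1, h0, h1, hne⟩ := exists_split h hs he hD y hy S.A (fun a ha => S.hA a ha)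
  obtain ⟨g, hg, hg'⟩ := h.extend (S.A : Set V) S.f (fun x hx y hy => S.pm x hx y hy)
  obtain ⟨w, hw, hw'⟩ := hD (S.A.image S.f) (by
    intro x hx
    simp only [Finset.coe_image, mem_image] at hx
    obtain ⟨a, ha, rfl⟩ := hx
    exact S.hf a ha) (g d0)
  have hdy : ∀ a ∈ S.A, κ y a ≠ e := fun a ha hya => hy (((he _ _).mp hya) ▸ S.hA a ha)
  have hd0A : d0 ∉ S.A := fun ha => hdy d0 ha (by rw [← h0 d0 ha]; exact (he _ _).mpr rfl)
  have hd1A : d1 ∉ S.A := fun ha => hdy d1 ha (by rw [← h1 d1 ha]; exact (he _ _).mpr rfl)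
  have hwa : ∀ a ∈ S.A, κ w (S.f a) = κ d0 a := by
    intro a ha
    rw [hw' (S.f a) (Finset.mem_image_of_mem _ ha), ← hg' a ha, hg]
  obtain ⟨S0, e0, m0, f0⟩ := S.add hs he d0 w hd0 hw hd0A hwa
  obtain ⟨S1, e1, m1, f1⟩ := S.add hs he d1 w hd1 hw hd1A (fun a ha => by
    rw [hwa a ha, h0 a ha, h1 a ha])
  obtain ⟨T0, t0, n0⟩ := S0.addDom h hs he hD d hd
  obtain ⟨T1, t1, n1⟩ := S1.addDom h hs he hD d hd
  refine ⟨fun b => if b then T0 else T1, ?_, ?_, d0, ?_, d1, ?_, ?_, hne⟩
  · intro b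
    cases b
    · exact e1.trans t1
    · exact e0.trans t0
  · intro b
    cases b
    · exact n1
    · exact n0
  · exact t0.1 d0 m0
  · exact t1.1 d1 m1
  · simp only [if_true, Bool.false_eq_true, if_false]
    rw [t0.2 d0 m0, t1.2 d1 m1, f0, f1]

end closed

/-- Main theorem: countable palette and uncountable implies size at least the continuum. -/
theorem main (h : AbsHom κ) (hs : ∀ x y, κ x y = κ y x) (he : ∀ x y, κ x y = e ↔ x = y)
    (hpal : {c | ∃ x y, x ≠ y ∧ κ x y = c}.Countable) (hV : ℵ₀ < #V) : 2 ^ ℵ₀ ≤ #V := by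
  classical
  obtain ⟨D, hDc, hD⟩ := exists_closed he hpal
  obtain ⟨y, hy⟩ : ∃ y, y ∉ D := by
    by_contra hcon
    push Not at hcon
    have : D = Set.univ := eq_univ_of_forall hcon
    rw [this, countable_univ_iff, ← Cardinal.mk_le_aleph0_iff] at hDc
    exact absurd hDc (not_le.mpr hV)
  have hDne : D.Nonempty := by
    obtain ⟨z', hz', _⟩ := hD ∅ (by simp) y
    exact ⟨z', hz'⟩
  obtain ⟨en, hen⟩ := hDc.exists_eq_range hDne
  have henD : ∀ n, en n ∈ D := fun n => hen ▸ mem_range_self n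
  choose T hT1 hT2 hT3 using fun (S : State κ D) (n : ℕ) =>
    S.split h hs he hD y hy (en n) (henD n)
  let S0 : State κ D := ⟨∅, id, by simp, by simp, by simp⟩
  let F : (ℕ → Bool) → ℕ → State κ D := fun b n => Nat.rec S0 (fun n S => T S n (b n)) n
  have hFs : ∀ b n, F b (n + 1) = T (F b n) n (b n) := fun b n => rfl
  have hFe : ∀ b n, (F b n).Ext (F b (n + 1)) := fun b n => by rw [hFs]; exact hT1 _ _ _
  have hFm : ∀ b n m, n ≤ m → (F b n).Ext (F b m) := by
    intro b n m hnm
    induction hnm with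
    | refl => exact State.Ext.refl _
    | step _ ih => exact ih.trans (hFe b _)
  have hFd : ∀ b n, en n ∈ (F b (n + 1)).A := fun b n => by rw [hFs]; exact hT2 _ _ _
  have hFag : ∀ b b' n, (∀ i, i < n → b i = b' i) → F b n = F b' n := by
    intro b b' n
    induction n with
    | zero => intro _; rfl
    | succ n ih =>
      intro hag
      rw [hFs, hFs, ih (fun i hi => hag i (hi.trans (Nat.lt_succ_self n))), hag n (Nat.lt_succ_self n)]
  -- the limit morphism
  have hidx : ∀ x ∈ D, ∃ n, en n = x := fun x hx => by rw [hen] at hx; exact hx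
  choose! ix hix using hidx
  have hlim : ∀ b, ∃ g : V ≃ V, (∀ x z, κ (g x) (g z) = κ x z) ∧
      ∀ n, ∀ x ∈ (F b n).A, g x = (F b n).f x := by
    intro b
    let f : V → V := fun x => (F b (ix x + 1)).f x
    have hmem : ∀ x ∈ D, x ∈ (F b (ix x + 1)).A := fun x hx => by
      have := hFd b (ix x)
      rwa [hix x hx] at this
    have hf : ∀ n, ∀ x ∈ (F b n).A, f x = (F b n).f x := by
      intro n x hx
      have hxD := (F b n).hA x hx
      rcases le_total n (ix x + 1) with hle | hle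
      · exact (hFm b _ _ hle).2 x hx
      · exact ((hFm b _ _ hle).2 x (hmem x hxD)).symm
    obtain ⟨g, hg, hg'⟩ := h.extend D f (by
      intro x hx z hz
      let m := max (ix x + 1) (ix z + 1)
      have hxm : x ∈ (F b m).A := (hFm b _ _ (le_max_left _ _)).1 x (hmem x hx)
      have hzm : z ∈ (F b m).A := (hFm b _ _ (le_max_right _ _)).1 z (hmem z hz)
      rw [hf m x hxm, hf m z hzm]
      exact (F b m).pm x hxm z hzm)
    exact ⟨g, hg, fun n x hx => (hg' x ((F b n).hA x hx)).trans (hf n x hx)⟩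
  choose g hg hg' using hlim
  have key : ∀ (b b' : ℕ → Bool) (n : ℕ), (∀ i, i < n → b i = b' i) → b n = true → b' n = false →
      g b y ≠ g b' y := by
    intro b b' n hag hb hb' heq
    have hS := hFag b b' n hag
    obtain ⟨d0, hd0, d1, hd1, hdd, hne⟩ := hT3 (F b n) n
    have e1 : F b (n + 1) = T (F b n) n true := by rw [hFs, hb]
    have e2 : F b' (n + 1) = T (F b n) n false := by rw [hFs, hb', ← hS]
    have h1 : g b d0 = (T (F b n) n true).f d0 := by
      rw [← e1]; exact hg' b (n + 1) d0 (by rw [e1]; exact hd0)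
    have h2 : g b' d1 = (T (F b n) n false).f d1 := by
      rw [← e2]; exact hg' b' (n + 1) d1 (by rw [e2]; exact hd1)
    apply hne
    rw [← hg b y d0, ← hg b' y d1, heq, h1, h2, hdd]
  have hinj : Function.Injective (fun b => g b y) := by
    intro b b' heq
    by_contra hne
    have hex : ∃ n, b n ≠ b' n := by
      by_contra hcon
      push Not at hcon
      exact hne (funext hcon)
    have hn := Nat.find_spec hex
    have hmin : ∀ i, i < Nat.find hex → b i = b' i := fun i hi => by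
      by_contra hcon
      exact Nat.find_min hex hi hcon
    rcases hb : b (Nat.find hex) with _ | _
    · rcases hb' : b' (Nat.find hex) with _ | _
      · exact hn (hb.trans hb'.symm)
      · exact key b' b _ (fun i hi => (hmin i hi).symm) hb' hb heq.symm
    · rcases hb' : b' (Nat.find hex) with _ | _
      · exact key b b' _ hmin hb hb' heq
      · exact hn (hb.trans hb'.symm)
  have h1 := Cardinal.mk_le_of_injective (α := ULift.{u} (ℕ → Bool)) (β := V)
    (f := fun b => g b.down y) (fun b b' hbb => ULift.down_injective (hinj hbb))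
  rw [Cardinal.mk_uLift] at h1
  simpa using h1

end

end Pool.Agent.V11249.Gec
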