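import Mathlib

set_option autoImplicit false

open MeasureTheory Set Filter Topology

namespace V11249.MeasHom

universe u v

/-- Boolean-valued homomorphisms on a Boolean algebra, that is, ultrafilters. -/
def IsUlt {A : Type u} [BooleanAlgebra A] (p : A → Bool) : Prop :=
  p ⊤ = true ∧ (∀ a b, p (a ⊓ b) = (p a && p b)) ∧ ∀ a, p aᶜ = !(p a)

/-- The Stone space of a Boolean algebra. -/
def St (A : Type u) [BooleanAlgebra A] : Type u := {p : A → Bool // IsUlt p}

instance (A : Type u) [BooleanAlgebra A] : TopologicalSpace (St A) :=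
  inferInstanceAs (TopologicalSpace {p : A → Bool // IsUlt p})

instance (A : Type u) [BooleanAlgebra A] : CompactSpace (St A) := by
  refine isCompact_iff_compactSpace.1 (IsClosed.isCompact ?_)
  have h : {p : A → Bool | IsUlt p} = {p | p ⊤ = true} ∩
      ((⋂ a, ⋂ b, {p | p (a ⊓ b) = (p a && p b)}) ∩ ⋂ a, {p | p aᶜ = !(p a)}) := by
    ext p
    simp only [IsUlt, mem_inter_iff, mem_iInter, mem_ofPred_eq]
  have h1 : ∀ a : A, Continuous fun p : A → Bool => p a := fun a => continuous_apply a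
  change IsClosed {p : A → Bool | IsUlt p}
  rw [h]
  refine (isClosed_eq (h1 _) continuous_const).inter (IsClosed.inter ?_ ?_)
  · refine isClosed_iInter fun a => isClosed_iInter fun b => isClosed_eq (h1 _) ?_
    exact (continuous_of_discreteTopology (f := fun q : Bool × Bool => q.1 && q.2)).comp
      ((h1 a).prodMk (h1 b))
  · refine isClosed_iInter fun a => isClosed_eq (h1 _) ?_
    exact (continuous_of_discreteTopology (f := fun q : Bool => !q)).comp (h1 a)

section

variable {A : Type u} [BooleanAlgebra A]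

/-- The indicator function of the clopen set given by `a`. -/
noncomputable def ind (a : A) : C(St A, ℝ) where
  toFun p := if p.1 a = true then 1 else 0
  continuous_toFun := by
    have h1 : Continuous fun p : St A => p.1 a := (continuous_apply a).comp continuous_subtype_val
    exact (continuous_of_discreteTopology (f := fun q : Bool => if q = true then (1 : ℝ) else 0)).comp
      h1

lemma exists_point (a : A) (ha : a ≠ ⊥) : ∃ p : St A, p.1 a = true := by
  classical
  have hdis : Disjoint ((Order.PFilter.principal a : Order.PFilter A) : Set A)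
      ((Order.Ideal.principal (⊥ : A) : Order.Ideal A) : Set A) := by
    rw [Set.disjoint_left]
    intro b hb hb'
    have h1 : a ≤ b := by simpa using hb
    have h2 : b ≤ ⊥ := Order.Ideal.mem_principal.1 hb'
    exact ha (le_bot_iff.1 (h1.trans h2))
  obtain ⟨J, hJ, -, hJd⟩ := DistribLattice.prime_ideal_of_disjoint_filter_ideal hdis
  have haJ : a ∉ J := fun h => Set.disjoint_left.1 hJd (by simp) h
  have htop : (⊤ : A) ∉ J := fun h => haJ (J.lower le_top h)
  have hinf : ∀ b c, b ⊓ c ∈ J → b ∈ J ∨ c ∈ J := fun b c => hJ.mem_or_mem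
  refine ⟨⟨fun b => decide (b ∉ J), ?_, ?_, ?_⟩, ?_⟩
  · simpa using htop
  · intro b c
    rw [Bool.eq_iff_iff]
    simp only [decide_eq_true_eq, Bool.and_eq_true]
    constructor
    · intro h
      exact ⟨fun hb => h (J.lower inf_le_left hb), fun hc => h (J.lower inf_le_right hc)⟩
    · rintro ⟨hb, hc⟩ h
      rcases hinf b c h with h | h
      · exact hb h
      · exact hc h
  · intro b
    rw [Bool.eq_iff_iff]
    simp only [decide_eq_true_eq, Bool.not_eq_true', decide_eq_false_iff_not, not_not]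
    constructor
    · intro h
      have h1 : b ⊓ bᶜ ∈ J := by
        rw [inf_compl_self]
        exact J.bot_mem
      rcases hinf _ _ h1 with h2 | h2
      · exact h2
      · exact absurd h2 h
    · intro h h'
      apply htop
      rw [← sup_compl_eq_top (x := b)]
      exact Order.Ideal.sup_mem h h'
  · simpa using haJ

/-- The pattern element: the intersection of the `a i` with `S i = true` and of the complements of
the other `a i`. -/
def pel {ι : Type*} [Fintype ι] (a : ι → A) (S : ι → Bool) : A :=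
  Finset.univ.inf fun i => if S i = true then a i else (a i)ᶜ

end

/-- A Boolean homomorphism from `A` to the measure algebra of `μ`, given by a choice of measurable
representatives. -/
structure MHom (A : Type u) [BooleanAlgebra A] {Ω : Type v} [MeasurableSpace Ω]
    (μ : Measure Ω) where
  /-- a set that represents the value at `a` -/
  toFun : A → Set Ω
  meas : ∀ a, MeasurableSet (toFun a)
  top : toFun ⊤ =ᵐ[μ] univ
  inf : ∀ a b, toFun (a ⊓ b) =ᵐ[μ] (toFun a ∩ toFun b : Set Ω)
  compl : ∀ a, toFun aᶜ =ᵐ[μ] ((toFun a)ᶜ : Set Ω)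

section

variable {A : Type u} [BooleanAlgebra A] {Ω : Type v} [MeasurableSpace Ω] {μ : Measure Ω}

lemma MHom.ae_top (φ : MHom A μ) : ∀ᵐ ω ∂μ, ω ∈ φ.toFun ⊤ := by
  filter_upwards [φ.top] with ω hω
  have : (ω ∈ φ.toFun ⊤) = (ω ∈ (univ : Set Ω)) := hω
  rw [this]
  exact mem_univ _

lemma MHom.ae_inf (φ : MHom A μ) (a b : A) :
    ∀ᵐ ω ∂μ, (ω ∈ φ.toFun (a ⊓ b) ↔ ω ∈ φ.toFun a ∧ ω ∈ φ.toFun b) := by
  filter_upwards [φ.inf a b] with ω hω
  have : (ω ∈ φ.toFun (a ⊓ b)) = (ω ∈ (φ.toFun a ∩ φ.toFun b : Set Ω)) := hω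
  rw [this]
  rfl

lemma MHom.ae_compl (φ : MHom A μ) (a : A) :
    ∀ᵐ ω ∂μ, (ω ∈ φ.toFun aᶜ ↔ ω ∉ φ.toFun a) := by
  filter_upwards [φ.compl a] with ω hω
  have : (ω ∈ φ.toFun aᶜ) = (ω ∈ ((φ.toFun a)ᶜ : Set Ω)) := hω
  rw [this]
  rfl

lemma MHom.ae_bot (φ : MHom A μ) : ∀ᵐ ω ∂μ, ω ∉ φ.toFun ⊥ := by
  filter_upwards [φ.ae_top, φ.ae_compl ⊥] with ω h1 h2
  rw [compl_bot] at h2
  exact h2.1 h1

lemma MHom.ae_sup (φ : MHom A μ) (a b : A) :
    ∀ᵐ ω ∂μ, (ω ∈ φ.toFun (a ⊔ b) ↔ ω ∈ φ.toFun a ∨ ω ∈ φ.toFun b) := by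
  filter_upwards [φ.ae_compl (aᶜ ⊓ bᶜ), φ.ae_compl a, φ.ae_compl b, φ.ae_inf aᶜ bᶜ] with
    ω h1 h2 h3 h4
  have h5 : (aᶜ ⊓ bᶜ)ᶜ = a ⊔ b := by simp
  rw [h5] at h1
  rw [h1, h4, h2, h3]
  tauto

lemma MHom.ae_finf (φ : MHom A μ) {ι : Type*} (s : Finset ι) (f : ι → A) :
    ∀ᵐ ω ∂μ, (ω ∈ φ.toFun (s.inf f) ↔ ∀ i ∈ s, ω ∈ φ.toFun (f i)) := by
  classical
  induction s using Finset.induction_on with
  | empty =>
    filter_upwards [φ.ae_top] with ω hω
    simpa using hω
  | insert i s hi ih =>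
    filter_upwards [ih, φ.ae_inf (f i) (s.inf f)] with ω h1 h2
    rw [Finset.inf_insert, h2, h1, Finset.forall_mem_insert]

lemma MHom.ae_fsup (φ : MHom A μ) {ι : Type*} (s : Finset ι) (f : ι → A) :
    ∀ᵐ ω ∂μ, (ω ∈ φ.toFun (s.sup f) ↔ ∃ i ∈ s, ω ∈ φ.toFun (f i)) := by
  classical
  induction s using Finset.induction_on with
  | empty =>
    filter_upwards [φ.ae_bot] with ω hω
    simpa using hω
  | insert i s hi ih =>
    filter_upwards [ih, φ.ae_sup (f i) (s.sup f)] with ω h1 h2
    rw [Finset.sup_insert, h2, h1, Finset.exists_mem_insert]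

open Classical in
/-- the pattern of a point -/
noncomputable def pat (φ : MHom A μ) {ι : Type*} (a : ι → A) (ω : Ω) : ι → Bool :=
  fun i => decide (ω ∈ φ.toFun (a i))

lemma pat_meas (φ : MHom A μ) {ι : Type*} (a : ι → A) : Measurable (pat φ a) := by
  classical
  refine measurable_pi_iff.2 fun i => ?_
  refine measurable_to_bool ?_
  have : (fun ω => pat φ a ω i) ⁻¹' {true} = φ.toFun (a i) := by
    ext ω
    simp [pat]
  rw [this]
  exact φ.meas _

lemma MHom.ae_pel (φ : MHom A μ) {ι : Type*} [Fintype ι] (a : ι → A) (S : ι → Bool) :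
    ∀ᵐ ω ∂μ, (ω ∈ φ.toFun (pel a S) ↔ pat φ a ω = S) := by
  have h1 : ∀ᵐ ω ∂μ, ∀ i, (ω ∈ φ.toFun (a i)ᶜ ↔ ω ∉ φ.toFun (a i)) :=
    ae_all_iff.2 fun i => φ.ae_compl (a i)
  filter_upwards [φ.ae_finf Finset.univ fun i => if S i = true then a i else (a i)ᶜ, h1] with
    ω h2 h3
  rw [pel, h2, funext_iff]
  refine ⟨fun h i => ?_, fun h i _ => ?_⟩
  · have h4 := h i (Finset.mem_univ i)
    by_cases hS : S i = true
    · rw [if_pos hS] at h4
      simp [pat, h4, hS]
    · rw [if_neg hS, h3] at h4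
      simp [pat, h4, hS]
  · have h4 := h i
    by_cases hS : S i = true
    · rw [if_pos hS]
      rw [hS] at h4
      simpa [pat] using h4
    · rw [if_neg hS, h3]
      rw [Bool.not_eq_true] at hS
      rw [hS] at h4
      simpa [pat] using h4

/-- the union of pattern elements -/
def pels {ι : Type*} [Fintype ι] (a : ι → A) (R : Finset (ι → Bool)) : A := R.sup (pel a)

lemma MHom.ae_pels (φ : MHom A μ) {ι : Type*} [Fintype ι] (a : ι → A) (R : Finset (ι → Bool)) :
    ∀ᵐ ω ∂μ, (ω ∈ φ.toFun (pels a R) ↔ pat φ a ω ∈ R) := by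
  have h1 : ∀ᵐ ω ∂μ, ∀ S : R, (ω ∈ φ.toFun (pel a S.1) ↔ pat φ a ω = S.1) :=
    ae_all_iff.2 fun S => φ.ae_pel a S.1
  filter_upwards [φ.ae_fsup R (pel a), h1] with ω h2 h3
  rw [pels, h2]
  constructor
  · rintro ⟨S, hS, h⟩
    rw [h3 ⟨S, hS⟩] at h
    rw [h]
    exact hS
  · intro h
    exact ⟨_, h, (h3 ⟨_, h⟩).2 rfl⟩

end

section functional

variable {A : Type u} [BooleanAlgebra A]

/-- cluster points in the unit ball of a dual space -/
lemma exists_cluster {E : Type*} [NormedAddCommGroup E] [NormedSpace ℝ E] {ι : Type*}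
    (l : Filter ι) [l.NeBot] (Λ : ι → StrongDual ℝ E) (h : ∀ i, ‖Λ i‖ ≤ 1) :
    ∃ Λ0 : StrongDual ℝ E, ‖Λ0‖ ≤ 1 ∧ ∀ x, MapClusterPt (Λ0 x) l (fun i => Λ i x) := by
  have hc := WeakDual.isCompact_closedBall (𝕜 := ℝ) (E := E) 0 1
  obtain ⟨L, hL, hcl⟩ := hc.exists_mapClusterPt_of_frequently (l := l)
    (f := fun i => StrongDual.toWeakDual (Λ i)) (Filter.Frequently.of_forall fun i => by
      show Λ i ∈ Metric.closedBall 0 1
      rw [mem_closedBall_zero_iff]
      exact h i)
  refine ⟨WeakDual.toStrongDual L, ?_, fun x => ?_⟩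
  · have h1 : WeakDual.toStrongDual L ∈ Metric.closedBall (0 : StrongDual ℝ E) 1 := hL
    rwa [mem_closedBall_zero_iff] at h1
  · exact MapClusterPt.continuousAt_comp (f := fun L' : WeakDual ℝ E => L' x)
      (WeakDual.eval_continuous x).continuousAt hcl

lemma MapClusterPt.le_of_eventually {ι : Type*} {l : Filter ι} {f : ι → ℝ} {x c : ℝ}
    (h : MapClusterPt x l f) (h1 : ∀ᶠ i in l, f i ≤ c) : x ≤ c := by
  by_contra hcon
  push Not at hcon
  have h2 := h.frequently (isOpen_Ioi.mem_nhds hcon)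
  obtain ⟨i, hi, hi'⟩ := (h2.and_eventually h1).exists
  exact absurd hi' (not_le.2 hi)

lemma MapClusterPt.ge_of_eventually {ι : Type*} {l : Filter ι} {f : ι → ℝ} {x c : ℝ}
    (h : MapClusterPt x l f) (h1 : ∀ᶠ i in l, c ≤ f i) : c ≤ x := by
  by_contra hcon
  push Not at hcon
  have h2 := h.frequently (isOpen_Iio.mem_nhds hcon)
  obtain ⟨i, hi, hi'⟩ := (h2.and_eventually h1).exists
  exact absurd hi' (not_le.2 hi)

lemma real_eq_sum {Ω : Type v} [MeasurableSpace Ω] {μ : Measure Ω} [IsFiniteMeasure μ]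
    {β : Type*} [Fintype β] [MeasurableSpace β] [MeasurableSingletonClass β] (Z : Ω → β)
    (hZ : Measurable Z) (B : β → Prop) [DecidablePred B] :
    μ.real {ω | B (Z ω)} = ∑ z, if B z then μ.real (Z ⁻¹' {z}) else 0 := by
  rw [← Finset.sum_filter]
  have h1 := sum_measureReal_preimage_singleton (μ := μ) (Finset.univ.filter B) (f := Z)
    (fun y _ => hZ (measurableSet_singleton y))
  rw [h1]
  congr 1
  ext ω
  simp

lemma exists_functional {Ω : Type v} [MeasurableSpace Ω] {μ : Measure Ω} [IsProbabilityMeasure μ]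
    (φ : MHom A μ) : ∃ Λ : StrongDual ℝ C(St A, ℝ), ‖Λ‖ ≤ 1 ∧ (∀ f, 0 ≤ f → 0 ≤ Λ f) ∧
      ∀ a, Λ (ind a) = μ.real (φ.toFun a) := by
  classical
  have hne : (⊤ : A) ≠ ⊥ := by
    intro h
    have h1 : ∀ᵐ ω ∂μ, False := by
      filter_upwards [φ.ae_top, φ.ae_bot] with ω h1 h2
      rw [h] at h1
      exact h2 h1
    rw [Filter.eventually_false_iff_eq_bot, ae_eq_bot] at h1
    exact IsProbabilityMeasure.ne_zero μ h1
  obtain ⟨p0, -⟩ := exists_point (⊤ : A) hne
  let q : (F : Finset A) → (F → Bool) → St A := fun F S =>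
    if h : ∃ p : St A, ∀ a : F, p.1 a.1 = S a then h.choose else p0
  let m : (F : Finset A) → (F → Bool) → ℝ := fun F S =>
    μ.real (pat φ (Subtype.val : F → A) ⁻¹' {S})
  have hm0 : ∀ F S, 0 ≤ m F S := fun F S => measureReal_nonneg
  have hm1 : ∀ F, ∑ S, m F S = 1 := by
    intro F
    have h1 := real_eq_sum (μ := μ) (pat φ (Subtype.val : F → A)) (pat_meas φ _) (fun _ => True)
    simp only [if_true] at h1
    rw [← h1]
    have : {ω : Ω | True} = univ := by ext; simp
    rw [this]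
    simp
  let Λ : Finset A → StrongDual ℝ C(St A, ℝ) := fun F =>
    ∑ S, (m F S) • (ContinuousMap.evalCLM ℝ (q F S))
  have hΛ : ∀ F f, Λ F f = ∑ S, m F S * f (q F S) := by
    intro F f
    simp [Λ]
  have hΛn : ∀ F, ‖Λ F‖ ≤ 1 := by
    intro F
    refine ContinuousLinearMap.opNorm_le_bound _ zero_le_one fun f => ?_
    rw [hΛ, one_mul]
    calc ‖∑ S, m F S * f (q F S)‖ ≤ ∑ S, ‖m F S * f (q F S)‖ := norm_sum_le _ _
      _ ≤ ∑ S, m F S * ‖f‖ := by
          refine Finset.sum_le_sum fun S _ => ?_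
          rw [norm_mul, Real.norm_of_nonneg (hm0 F S)]
          exact mul_le_mul_of_nonneg_left (f.norm_coe_le_norm _) (hm0 F S)
      _ = ‖f‖ := by rw [← Finset.sum_mul, hm1, one_mul]
  have hΛp : ∀ F f, 0 ≤ f → 0 ≤ Λ F f := by
    intro F f hf
    rw [hΛ]
    exact Finset.sum_nonneg fun S _ => mul_nonneg (hm0 F S) (hf _)
  have hΛa : ∀ a : A, ∀ F : Finset A, a ∈ F → Λ F (ind a) = μ.real (φ.toFun a) := by
    intro a F ha
    rw [hΛ]
    have h1 : φ.toFun a = {ω | pat φ (Subtype.val : F → A) ω ⟨a, ha⟩ = true} := by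
      ext ω
      simp [pat]
    have h2 := real_eq_sum (μ := μ) (pat φ (Subtype.val : F → A)) (pat_meas φ _)
      (fun S => S ⟨a, ha⟩ = true)
    rw [h1, h2]
    refine Finset.sum_congr rfl fun S _ => ?_
    by_cases hS : m F S = 0
    · have hS' : μ.real (pat φ (Subtype.val : F → A) ⁻¹' {S}) = 0 := hS
      rw [hS, hS', zero_mul]
      split_ifs <;> rfl
    · have hex : ∃ p : St A, ∀ a : F, p.1 a.1 = S a := by
        have h3 : pel (Subtype.val : F → A) S ≠ ⊥ := by
          intro h3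
          apply hS
          have h4 : ∀ᵐ ω ∂μ, ω ∉ pat φ (Subtype.val : F → A) ⁻¹' {S} := by
            filter_upwards [φ.ae_pel (Subtype.val : F → A) S, φ.ae_bot] with ω h5 h6 h7
            rw [h3] at h5
            exact h6 (h5.2 h7)
          have h5 : μ (pat φ (Subtype.val : F → A) ⁻¹' {S}) = 0 := by
            rw [← compl_compl (pat φ (Subtype.val : F → A) ⁻¹' {S})]
            exact mem_ae_iff.1 h4
          show μ.real _ = 0
          rw [measureReal_def, h5, ENNReal.toReal_zero]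
        obtain ⟨p, hp⟩ := exists_point _ h3
        refine ⟨p, fun b => ?_⟩
        have h4 : ∀ (s : Finset F) (f : F → A), p.1 (s.inf f) = true → ∀ i ∈ s, p.1 (f i) = true := by
          intro s f
          induction s using Finset.induction_on with
          | empty => simp
          | insert i s hi ih =>
            intro h5
            rw [Finset.inf_insert, p.2.2.1, Bool.and_eq_true] at h5
            intro j hj
            rcases Finset.mem_insert.1 hj with rfl | hj
            · exact h5.1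
            · exact ih h5.2 j hj
        have h5 := h4 _ _ hp b (Finset.mem_univ b)
        by_cases hb : S b = true
        · rw [if_pos hb] at h5
          rw [h5, hb]
        · rw [if_neg hb, p.2.2.2] at h5
          rw [Bool.not_eq_true] at hb
          rw [hb]
          simpa using h5
      have hq : ∀ b : F, (q F S).1 b.1 = S b := by
        intro b
        simp only [q, dif_pos hex]
        exact hex.choose_spec b
      have h6 : (ind a) (q F S) = if S ⟨a, ha⟩ = true then 1 else 0 := by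
        show (if (q F S).1 a = true then (1 : ℝ) else 0) = _
        rw [hq ⟨a, ha⟩]
      rw [h6]
      show m F S * _ = if _ then m F S else 0
      split_ifs <;> simp
  obtain ⟨Λ0, h1, h2⟩ := exists_cluster (atTop : Filter (Finset A)) Λ hΛn
  refine ⟨Λ0, h1, fun f hf => ?_, fun a => ?_⟩
  · exact MapClusterPt.ge_of_eventually (h2 f) (Filter.Eventually.of_forall fun F => hΛp F f hf)
  · refine le_antisymm (MapClusterPt.le_of_eventually (h2 _) ?_)
      (MapClusterPt.ge_of_eventually (h2 _) ?_)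
    · filter_upwards [eventually_ge_atTop {a}] with F hF
      exact (hΛa a F (hF (Finset.mem_singleton_self a))).le
    · filter_upwards [eventually_ge_atTop {a}] with F hF
      exact (hΛa a F (hF (Finset.mem_singleton_self a))).ge

/-- Convergence on the indicator functions implies convergence on all continuous functions. -/
lemma tendsto_of_ind (Λ : ℕ → StrongDual ℝ C(St A, ℝ)) (Λ0 : StrongDual ℝ C(St A, ℝ))
    (h : ∀ n, ‖Λ n‖ ≤ 1) (h0 : ‖Λ0‖ ≤ 1)
    (hind : ∀ a, Tendsto (fun n => Λ n (ind a)) atTop (𝓝 (Λ0 (ind a)))) (f : C(St A, ℝ)) :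
    Tendsto (fun n => Λ n f) atTop (𝓝 (Λ0 f)) := by
  let V : Subalgebra ℝ C(St A, ℝ) := Algebra.adjoin ℝ (range ind)
  have hV : ∀ g ∈ V, Tendsto (fun n => Λ n g) atTop (𝓝 (Λ0 g)) := by
    intro g hg
    have hg' : g ∈ Submodule.span ℝ (Submonoid.closure (range (ind : A → C(St A, ℝ))) :
        Set C(St A, ℝ)) := by
      rw [← Algebra.adjoin_eq_span]
      exact hg
    have hcl : (Submonoid.closure (range (ind : A → C(St A, ℝ))) : Set C(St A, ℝ)) ⊆
        range (ind : A → C(St A, ℝ)) := by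
      intro g hg
      refine Submonoid.closure_induction (motive := fun g _ => g ∈ range (ind : A → C(St A, ℝ)))
        (fun x hx => hx) ?_ ?_ hg
      · refine ⟨⊤, ?_⟩
        ext p
        show (if p.1 ⊤ = true then (1 : ℝ) else 0) = 1
        rw [if_pos p.2.1]
      · rintro _ _ _ _ ⟨a, rfl⟩ ⟨b, rfl⟩
        refine ⟨a ⊓ b, ?_⟩
        ext p
        show (if p.1 (a ⊓ b) = true then (1 : ℝ) else 0) =
          (if p.1 a = true then (1 : ℝ) else 0) * (if p.1 b = true then (1 : ℝ) else 0)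
        rw [p.2.2.1]
        cases p.1 a <;> cases p.1 b <;> simp
    have hg2 := Submodule.span_mono hcl hg'
    refine Submodule.span_induction (p := fun g _ => Tendsto (fun n => Λ n g) atTop (𝓝 (Λ0 g)))
      ?_ ?_ ?_ ?_ hg2
    · rintro _ ⟨a, rfl⟩
      exact hind a
    · simp
    · intro x y _ _ hx hy
      simp only [map_add]
      exact hx.add hy
    · intro c x _ hx
      simp only [map_smul]
      exact hx.const_smul c
  have hdense : V.topologicalClosure = ⊤ := by
    refine ContinuousMap.subalgebra_topologicalClosure_eq_top_of_separatesPoints V ?_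
    intro p q hpq
    have h1 : p.1 ≠ q.1 := fun h => hpq (Subtype.ext h)
    obtain ⟨a, ha⟩ := Function.ne_iff.1 h1
    refine ⟨ind a, ⟨ind a, Algebra.subset_adjoin ⟨a, rfl⟩, rfl⟩, ?_⟩
    show (if p.1 a = true then (1 : ℝ) else 0) ≠ (if q.1 a = true then (1 : ℝ) else 0)
    revert ha
    cases p.1 a <;> cases q.1 a <;> simp
  rw [Metric.tendsto_atTop]
  intro ε hε
  have hf : f ∈ closure (V : Set C(St A, ℝ)) := by
    have : f ∈ V.topologicalClosure := by rw [hdense]; trivial
    exact this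
  obtain ⟨g, hg, hfg⟩ := Metric.mem_closure_iff.1 hf (ε / 3) (by linarith)
  obtain ⟨N, hN⟩ := Metric.tendsto_atTop.1 (hV g hg) (ε / 3) (by linarith)
  refine ⟨N, fun n hn => ?_⟩
  have h1 := hN n hn
  rw [dist_eq_norm] at hfg
  rw [Real.dist_eq] at h1 ⊢
  have h2 : |Λ n f - Λ n g| ≤ ‖f - g‖ := by
    rw [← map_sub, ← Real.norm_eq_abs]
    refine ((Λ n).le_opNorm _).trans ?_
    exact mul_le_of_le_one_left (norm_nonneg _) (h n)
  have h3 : |Λ0 f - Λ0 g| ≤ ‖f - g‖ := by
    rw [← map_sub, ← Real.norm_eq_abs]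
    refine (Λ0.le_opNorm _).trans ?_
    exact mul_le_of_le_one_left (norm_nonneg _) h0
  rw [abs_lt] at h1 ⊢
  rw [abs_le] at h2 h3
  constructor <;> linarith [h1.1, h1.2, h2.1, h2.2, h3.1, h3.2]

end functional

end V11249.MeasHom
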