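import Mathlib

set_option autoImplicit false

open Set Filter Topology

namespace V11249.PolishUnique

open Pointwise in
/-- The category argument. -/
lemma core {G : Type*} [Group G] [TopologicalSpace G] [IsTopologicalGroup G]
    [BaireSpace G] [Nonempty G] (B : Set (Set G)) (hBc : B.Countable)
    (hBm : ∀ s ∈ B, ∃ u : Set G, IsOpen u ∧ s =ᵇ u) (U : Set G)
    (hfac : ∀ p q : G, p * q ∈ U → ∃ P ∈ B, ∃ Q ∈ B, p ∈ P ∧ q ∈ Q ∧ ∀ a ∈ P, ∀ b ∈ Q, a * b ∈ U) :
    IsOpen U := by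
  choose! M hM1 hM2 using hBm
  have hgen : ∀ᶠ g in residual G, ∀ s ∈ B, (g ∈ s ↔ g ∈ M s) := by
    rw [eventually_countable_ball hBc]
    intro s hs
    have h1 := hM2 s hs
    filter_upwards [h1] with g hg
    exact iff_of_eq hg
  have hhom : ∀ y : G, Tendsto (fun q => y * q⁻¹) (residual G) (residual G) := by
    intro y
    have h1 : Continuous fun q : G => y * q⁻¹ := continuous_const.mul continuous_inv
    have h2 : IsOpenMap fun q : G => y * q⁻¹ :=
      ((Homeomorph.inv G).trans (Homeomorph.mulLeft y)).isOpenMap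
    exact tendsto_residual_of_isOpenMap h1 h2
  rw [isOpen_iff_mem_nhds]
  intro x hx
  -- choose a generic factorization
  obtain ⟨v, hv1, hv2⟩ : ∃ v : G, (∀ s ∈ B, (v ∈ s ↔ v ∈ M s)) ∧
      ∀ s ∈ B, (x * v⁻¹ ∈ s ↔ x * v⁻¹ ∈ M s) := by
    have h1 : {v | (∀ s ∈ B, (v ∈ s ↔ v ∈ M s)) ∧
      ∀ s ∈ B, (x * v⁻¹ ∈ s ↔ x * v⁻¹ ∈ M s)} ∈ residual G :=
        hgen.and ((hhom x).eventually hgen)
    exact (dense_of_mem_residual h1).nonempty
  obtain ⟨P, hPB, Q, hQB, hxP', hvQ', hPQ⟩ := hfac (x * v⁻¹) v (by rwa [inv_mul_cancel_right])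
  have hxM : x * v⁻¹ ∈ M P := (hv2 P hPB).1 hxP'
  have hvM : v ∈ M Q := (hv1 Q hQB).1 hvQ'
  have hMo : IsOpen (M P * M Q) := (hM1 P hPB).mul_right
  refine mem_of_superset (hMo.mem_nhds ⟨x * v⁻¹, hxM, v, hvM, inv_mul_cancel_right x v⟩) ?_
  rintro _ ⟨a, ha, b, hb, rfl⟩
  -- the Pettis argument
  have hO : IsOpen {q | q ∈ M Q ∧ a * b * q⁻¹ ∈ M P} := by
    refine (hM1 Q hQB).inter ((hM1 P hPB).preimage ?_)
    exact continuous_const.mul continuous_inv
  have hne : {q | q ∈ M Q ∧ a * b * q⁻¹ ∈ M P}.Nonempty :=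
    ⟨b, hb, by rwa [mul_inv_cancel_right]⟩
  have hres : {q | (∀ s ∈ B, (q ∈ s ↔ q ∈ M s)) ∧
      ∀ s ∈ B, (a * b * q⁻¹ ∈ s ↔ a * b * q⁻¹ ∈ M s)} ∈ residual G :=
    hgen.and ((hhom (a * b)).eventually hgen)
  obtain ⟨q, ⟨hq1, hq2⟩, hq3, hq4⟩ := (dense_of_mem_residual hres).inter_open_nonempty _ hO hne
  have h8 := hPQ (a * b * q⁻¹) ((hq4 P hPB).2 hq2) q ((hq3 Q hQB).2 hq1)
  rwa [inv_mul_cancel_right] at h8

/-- A Polish topology for which multiplication is continuous and which is finer than a Polish group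
topology is equal to it. -/
theorem eq_of_le {G : Type*} [Group G] (σ : TopologicalSpace G) (hσ : IsTopologicalGroup G)
    (hσP : PolishSpace G) (τ : TopologicalSpace G) (hτ : @PolishSpace G τ) (hle : τ ≤ σ)
    (hmul : @Continuous (G × G) G (@instTopologicalSpaceProd G G τ τ) τ (fun p => p.1 * p.2)) :
    τ = σ := by
  refine le_antisymm hle ?_
  have hborel : @borel G τ = @borel G σ :=
    MeasureTheory.borel_eq_borel_of_le hτ hσP hle
  have hsc : @SecondCountableTopology G τ := @PolishSpace.toSecondCountableTopology G τ hτ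
  let B : Set (Set G) := @TopologicalSpace.countableBasis G τ hsc
  have hBc : B.Countable := @TopologicalSpace.countable_countableBasis G τ hsc
  have hB : @TopologicalSpace.IsTopologicalBasis G τ B :=
    @TopologicalSpace.isBasis_countableBasis G τ hsc
  -- approximation by open sets
  have hM : ∀ s ∈ B, ∃ u : Set G, IsOpen[σ] u ∧ s =ᶠ[@residual G σ] u := by
    intro s hs
    have h1 : @MeasurableSet G (@borel G σ) s := by
      rw [← hborel]
      exact MeasurableSpace.measurableSet_generateFrom (hB.isOpen hs)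
    exact @MeasurableSet.residualEq_isOpen G σ s (@borel G σ) (@BorelSpace.mk G σ (@borel G σ) rfl) h1
  intro U hU
  have hBaire : @BaireSpace G σ := by
    let := σ
    have := hσP
    infer_instance
  refine @core G _ σ hσ hBaire ⟨1⟩ B hBc hM U fun p q hpq => ?_
  have hopen : @IsOpen (G × G) (@instTopologicalSpaceProd G G τ τ) ((fun p => p.1 * p.2) ⁻¹' U) :=
    hmul.isOpen_preimage U hU
  obtain ⟨P0, Q0, hP0, hQ0, hxP, hvQ, hPQ⟩ := (@isOpen_prod_iff G G τ τ _).1 hopen p q hpq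
  obtain ⟨P, hPB, hxP', hPP⟩ := hB.exists_subset_of_mem_open hxP hP0
  obtain ⟨Q, hQB, hvQ', hQQ⟩ := hB.exists_subset_of_mem_open hvQ hQ0
  refine ⟨P, hPB, Q, hQB, hxP', hvQ', fun a ha b hb => ?_⟩
  have h1 : ((a, b) : G × G) ∈ (fun p : G × G => p.1 * p.2) ⁻¹' U := hPQ ⟨hPP ha, hQQ hb⟩
  exact h1

end V11249.PolishUnique
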