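import Mathlib

set_option autoImplicit false

namespace Pool.Agent.V11249.RigidTree

open Set Cardinal

/-- Diagonalisation of length continuum. -/
theorem diag {Y I : Type} (hI : #I ≤ 𝔠) (P Q : I → (ℕ → Bool) → Y) (B A : I → (ℕ → Bool) → Prop) :
    ∃ V : Set Y, ∀ i, Function.Injective (P i) → (∀ w, P i w ≠ Q i w) →
      ∃ w, ¬ (P i w ∈ V ↔ (B i w ∧ (A i w → Q i w ∈ V))) := by
  classical
  -- a well-ordered copy of `I`
  let J : Type := (#I).ord.ToType
  have hJ : #J = #I := Cardinal.mk_ord_toType _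
  obtain ⟨eq⟩ := Cardinal.eq.mp hJ
  have hIio : ∀ i : J, #(Iio i) < 𝔠 := fun i => (Cardinal.mk_Iio_toType_ord_lt i).trans_le hI
  have step : ∀ (i : J) (w' : ∀ j, j < i → (ℕ → Bool)), ∃ w : ℕ → Bool,
      Function.Injective (P (eq i)) → ∀ j (h : j < i),
        P (eq i) w ≠ P (eq j) (w' j h) ∧ P (eq i) w ≠ Q (eq j) (w' j h) := by
    intro i w'
    by_cases hinj : Function.Injective (P (eq i))
    · by_contra hcon
      push Not at hcon
      let F : (Iio i) ⊕ (Iio i) → Y := fun z => match z with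
        | Sum.inl j => P (eq j.1) (w' j.1 j.2)
        | Sum.inr j => Q (eq j.1) (w' j.1 j.2)
      have hr : ∀ w, P (eq i) w ∈ range F := by
        intro w
        obtain ⟨_, j, hj, h⟩ := hcon w
        by_cases h1 : P (eq i) w = P (eq j) (w' j hj)
        · exact ⟨Sum.inl ⟨j, hj⟩, h1.symm⟩
        · exact ⟨Sum.inr ⟨j, hj⟩, (h h1).symm⟩
      have h1 : #(ℕ → Bool) ≤ #(range F) :=
        Cardinal.mk_le_of_injective (f := fun w => (⟨P (eq i) w, hr w⟩ : range F))
          (fun a b hab => hinj (congrArg Subtype.val hab))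
      have h2 : #(range F) ≤ #((Iio i) ⊕ (Iio i) : Type) := Cardinal.mk_range_le
      have h3 : #((Iio i) ⊕ (Iio i) : Type) < 𝔠 := by
        simp only [Cardinal.mk_sum, Cardinal.lift_id]
        exact Cardinal.add_lt_of_lt Cardinal.aleph0_le_continuum (hIio i) (hIio i)
      have h4 : #(ℕ → Bool) = 𝔠 := by simp
      exact absurd (h1.trans h2) (not_le.mpr (h4 ▸ h3))
    · exact ⟨fun _ => false, fun h => absurd h hinj⟩
  choose F hF using step
  have wf : WellFounded (fun a b : J => a < b) := wellFounded_lt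
  let w : J → (ℕ → Bool) := wf.fix (C := fun _ => ℕ → Bool) F
  have hw : ∀ i, w i = F i (fun j _ => w j) := fun i => wf.fix_eq F i
  have hw' : ∀ i, Function.Injective (P (eq i)) → ∀ j, j < i →
      P (eq i) (w i) ≠ P (eq j) (w j) ∧ P (eq i) (w i) ≠ Q (eq j) (w j) := by
    intro i hi j hj
    rw [hw i]
    exact hF i (fun j _ => w j) hi j hj
  let G : J → Prop := wf.fix (C := fun _ => Prop) (fun i rec =>
    Function.Injective (P (eq i)) ∧ ¬ (B (eq i) (w i) ∧ (A (eq i) (w i) →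
      ∃ j, ∃ h : j < i, rec j h ∧ Q (eq i) (w i) = P (eq j) (w j))))
  have hG : ∀ i, G i ↔ (Function.Injective (P (eq i)) ∧ ¬ (B (eq i) (w i) ∧ (A (eq i) (w i) →
      ∃ j, ∃ h : j < i, G j ∧ Q (eq i) (w i) = P (eq j) (w j)))) := by
    intro i
    have := wf.fix_eq (C := fun _ => Prop) (fun i rec =>
      Function.Injective (P (eq i)) ∧ ¬ (B (eq i) (w i) ∧ (A (eq i) (w i) →
      ∃ j, ∃ h : j < i, rec j h ∧ Q (eq i) (w i) = P (eq j) (w j)))) i
    exact iff_of_eq this
  refine ⟨{y | ∃ i, G i ∧ y = P (eq i) (w i)}, ?_⟩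
  intro i0 hinj hne
  obtain ⟨i, rfl⟩ := eq.surjective i0
  refine ⟨w i, ?_⟩
  have hP : P (eq i) (w i) ∈ {y | ∃ i, G i ∧ y = P (eq i) (w i)} ↔ G i := by
    constructor
    · rintro ⟨j, hGj, hj⟩
      rcases lt_trichotomy i j with h | h | h
      · exact absurd hj.symm (hw' j ((hG j).mp hGj).1 i h).1
      · rw [h]; exact hGj
      · exact absurd hj (hw' i hinj j h).1
    · intro h
      exact ⟨i, h, rfl⟩
  have hQ : Q (eq i) (w i) ∈ {y | ∃ i, G i ∧ y = P (eq i) (w i)} ↔
      ∃ j, ∃ h : j < i, G j ∧ Q (eq i) (w i) = P (eq j) (w j) := by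
    constructor
    · rintro ⟨j, hGj, hj⟩
      rcases lt_trichotomy i j with h | h | h
      · exact absurd hj.symm (hw' j ((hG j).mp hGj).1 i h).2
      · subst h
        exact absurd hj.symm (hne _)
      · exact ⟨j, h, hGj, hj⟩
    · rintro ⟨j, h, hGj, hj⟩
      exact ⟨j, hGj, hj⟩
  rw [hP, hQ, hG i]
  intro h
  by_cases hz : (B (eq i) (w i) ∧ (A (eq i) (w i) →
      ∃ j, ∃ h : j < i, G j ∧ Q (eq i) (w i) = P (eq j) (w j)))
  · exact (h.mpr hz).2 hz
  · exact hz (h.mp ⟨hinj, hz⟩)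

/-- Functions to `Fin 3` all of whose nonzero values are isolated from the right. -/
def Gap (g : ℝ → Fin 3) : Prop := ∀ s, ∃ ε > 0, ∀ t, s < t → t < s + ε → g t = 0

theorem mk_gap_le : #{g : ℝ → Fin 3 // Gap g} ≤ 𝔠 := by
  classical
  let R : (ℝ → Fin 3) → ℚ → ℝ → Prop := fun g q s => s < q ∧ g s ≠ 0 ∧ ∀ t, s < t → t < q → g t = 0
  have huniq : ∀ g q s s', R g q s → R g q s' → s = s' := by
    intro g q s s' h h'
    rcases lt_trichotomy s s' with hlt | heq | hgt
    · exact absurd (h.2.2 s' hlt h'.1) h'.2.1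
    · exact heq
    · exact absurd (h'.2.2 s hgt h.1) h.2.1
  let E : {g : ℝ → Fin 3 // Gap g} → (ℚ → Option (ℝ × Fin 3)) := fun g q =>
    if h : ∃ s, R g.1 q s then some (h.choose, g.1 h.choose) else none
  have hE : ∀ g : {g : ℝ → Fin 3 // Gap g}, ∀ s, g.1 s ≠ 0 → ∃ q : ℚ, E g q = some (s, g.1 s) := by
    intro g s hs
    obtain ⟨ε, hε, h⟩ := g.2 s
    obtain ⟨q, hq1, hq2⟩ := exists_rat_btwn (show s < s + ε by linarith)
    have hR : R g.1 q s := ⟨hq1, hs, fun t ht ht' => h t ht (ht'.trans hq2)⟩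
    have hex : ∃ s, R g.1 q s := ⟨s, hR⟩
    refine ⟨q, ?_⟩
    have : hex.choose = s := huniq g.1 q _ _ hex.choose_spec hR
    simp only [E]
    rw [dif_pos hex, this]
  have hE' : ∀ g : {g : ℝ → Fin 3 // Gap g}, ∀ q s v, E g q = some (s, v) → g.1 s = v := by
    intro g q s v h
    simp only [E] at h
    split_ifs at h with hex
    simp only [Option.some.injEq, Prod.mk.injEq] at h
    rw [← h.1]; exact h.2
  have hinj : Function.Injective E := by
    intro g g' h
    apply Subtype.ext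
    funext s
    by_cases hs : g.1 s = 0
    · by_cases hs' : g'.1 s = 0
      · rw [hs, hs']
      · obtain ⟨q, hq⟩ := hE g' s hs'
        rw [← h] at hq
        exact hE' g q _ _ hq
    · obtain ⟨q, hq⟩ := hE g s hs
      rw [h] at hq
      exact (hE' g' q _ _ hq).symm
  refine (Cardinal.mk_le_of_injective hinj).trans ?_
  have h1 : #(Option (ℝ × Fin 3)) = 𝔠 := by
    rw [Cardinal.mk_option, Cardinal.mk_prod]
    simp only [Cardinal.mk_real, Cardinal.lift_id, Cardinal.mk_fin]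
    rw [Cardinal.mul_eq_left Cardinal.aleph0_le_continuum]
    · exact Cardinal.add_one_eq Cardinal.aleph0_le_continuum
    · exact (Cardinal.natCast_lt_aleph0 (n := 3)).le.trans Cardinal.aleph0_le_continuum
    · norm_num
  have h2 : #(ℚ → Option (ℝ × Fin 3)) = 𝔠 := by
    rw [← Cardinal.power_def, h1, Cardinal.mkRat]
    exact Cardinal.continuum_power_aleph0
  exact h2.le

end Pool.Agent.V11249.RigidTree
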