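import Pool.Agent.V11249.RigidTree

set_option autoImplicit false

namespace Pool.Agent.V11249.RigidTree

open Set Cardinal

universe u

/-- Index set for the diagonalisation. -/
abbrev Idx : Type := (List Bool → ℝ × {g : ℝ → Fin 3 // Gap g}) × (List Bool → ℝ × {g : ℝ → Fin 3 // Gap g})

theorem mk_idx_le : #Idx ≤ 𝔠 := by
  have h0 : #(ℝ × {g : ℝ → Fin 3 // Gap g}) ≤ 𝔠 := by
    rw [Cardinal.mk_prod, Cardinal.lift_id, Cardinal.lift_id, Cardinal.mk_real]
    calc 𝔠 * #{g : ℝ → Fin 3 // Gap g} ≤ 𝔠 * 𝔠 := by gcongr; exact mk_gap_le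
      _ = 𝔠 := Cardinal.continuum_mul_self
  have h1 : #(List Bool → ℝ × {g : ℝ → Fin 3 // Gap g}) ≤ 𝔠 := by
    rw [← Cardinal.power_def]
    calc #(ℝ × {g : ℝ → Fin 3 // Gap g}) ^ #(List Bool) ≤ 𝔠 ^ #(List Bool) :=
          Cardinal.power_le_power_right h0
      _ = 𝔠 ^ ℵ₀ := by rw [Cardinal.mk_eq_aleph0]
      _ = 𝔠 := Cardinal.continuum_power_aleph0
  rw [Cardinal.mk_prod, Cardinal.lift_id]
  calc #(List Bool → ℝ × {g : ℝ → Fin 3 // Gap g}) * #(List Bool → ℝ × {g : ℝ → Fin 3 // Gap g})
      ≤ 𝔠 * 𝔠 := by gcongr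
    _ = 𝔠 := Cardinal.continuum_mul_self

/-- The sequence coded by a scheme along `w`. -/
noncomputable def seqc (p : List Bool → ℝ × {g : ℝ → Fin 3 // Gap g}) (w : ℕ → Bool) :
    ℕ → ℝ × (ℝ → Fin 3) :=
  fun n => ((p ((List.range n).map w)).1, (p ((List.range n).map w)).2.1)

/-- The property of the set `V` obtained by diagonalisation. -/
def Good (V : Set (ℝ → Fin 3)) : Prop :=
  ∀ p q : List Bool → ℝ × {g : ℝ → Fin 3 // Gap g},
    Function.Injective (fun w => limc (seqc p w)) →
    (∀ w, limc (seqc p w) ≠ limc (seqc q w)) →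
    ∃ w, ¬ (limc (seqc p w) ∈ V ↔ (BddAbove (range fun n => (seqc q w n).1) ∧
      (Acc {s | limc (seqc q w) s ≠ 0} (sSup (range fun n => (seqc q w n).1)) →
        limc (seqc q w) ∈ V)))

theorem exists_good : ∃ V : Set (ℝ → Fin 3), Good V := by
  obtain ⟨V, hV⟩ := diag (Y := ℝ → Fin 3) (I := Idx) mk_idx_le
    (fun i w => limc (seqc i.1 w)) (fun i w => limc (seqc i.2 w))
    (fun i w => BddAbove (range fun n => (seqc i.2 w n).1))
    (fun i w => Acc {s | limc (seqc i.2 w) s ≠ 0} (sSup (range fun n => (seqc i.2 w n).1)))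
  exact ⟨V, fun p q h1 h2 => hV (p, q) h1 h2⟩

section

variable {W : Type u} [LinearOrder W] {V : Set (ℝ → Fin 3)}

/-- Coarse data with the gap property. -/
noncomputable def ccrs (x : Node W V) : ℝ × {g : ℝ → Fin 3 // Gap g} :=
  (x.r, ⟨col x.f, fun s => by
    obtain ⟨ε, hε, h⟩ := x.gap s
    exact ⟨ε, hε, fun t h1 h2 => col_eq_zero.mpr (h t h1 h2)⟩⟩)

theorem st_hd (a : ℝ) (n : ℕ) (b : Bool) : a ≤ a + if b then 0 else (1 / 2 : ℝ) ^ (n + 1) := by
  have : (0 : ℝ) ≤ if b then 0 else (1 / 2 : ℝ) ^ (n + 1) := by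
    split_ifs
    · exact le_rfl
    · positivity
  linarith

theorem st_hr (a : ℝ) (n : ℕ) (b : Bool) :
    (a + if b then 0 else (1 / 2 : ℝ) ^ (n + 1)) < a + (1 / 2 : ℝ) ^ n := by
  have h1 : (0 : ℝ) < (1 / 2 : ℝ) ^ (n + 1) := by positivity
  have h2 : (1 / 2 : ℝ) ^ n = 2 * (1 / 2 : ℝ) ^ (n + 1) := by ring
  rw [h2]
  split_ifs <;> linarith

/-- One step of the binary scheme. -/
noncomputable def st (b0 : W) (y : Node W V) (n : ℕ) (b : Bool) : Node W V :=
  ext1 y (y.r + if b then 0 else (1 / 2 : ℝ) ^ (n + 1)) (some b0) (y.r + (1 / 2 : ℝ) ^ n)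
    (st_hd y.r n b) (st_hr y.r n b)

/-- The binary scheme. -/
noncomputable def sch (b0 : W) (x : Node W V) (w : ℕ → Bool) : ℕ → Node W V
  | 0 => x
  | n + 1 => st b0 (sch b0 x w n) n (w n)

theorem sch_congr (b0 : W) (x : Node W V) {w w' : ℕ → Bool} {n : ℕ} (h : ∀ i, i < n → w i = w' i) :
    sch b0 x w n = sch b0 x w' n := by
  induction n with
  | zero => rfl
  | succ n ih =>
    simp only [sch]
    rw [ih (fun i hi => h i (hi.trans (Nat.lt_succ_self n))), h n (Nat.lt_succ_self n)]

theorem sch_mono (b0 : W) (x : Node W V) (w : ℕ → Bool) : Monotone (sch b0 x w) :=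
  monotone_nat_of_le_succ (fun n => (lt_ext1 (sch b0 x w n) _ (some b0) _ (st_hd _ n (w n)) (st_hr _ n (w n))).le)

theorem sch_r_succ (b0 : W) (x : Node W V) (w : ℕ → Bool) (n : ℕ) :
    (sch b0 x w (n + 1)).r = (sch b0 x w n).r + (1 / 2 : ℝ) ^ n := rfl

theorem sch_r (b0 : W) (x : Node W V) (w : ℕ → Bool) (n : ℕ) :
    (sch b0 x w n).r = x.r + 2 - 2 * (1 / 2 : ℝ) ^ n := by
  induction n with
  | zero => simp [sch]
  | succ n ih => rw [sch_r_succ, ih]; ring

theorem sch_r_le (b0 : W) (x : Node W V) (w : ℕ → Bool) (n : ℕ) : (sch b0 x w n).r ≤ x.r + 2 := by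
  rw [sch_r]
  have : (0 : ℝ) < (1 / 2 : ℝ) ^ n := by positivity
  linarith

/-- The support point created at stage `n`. -/
theorem sch_pt (b0 : W) (x : Node W V) (w : ℕ → Bool) (n : ℕ) :
    ∃ d, (sch b0 x w n).r ≤ d ∧ d < (sch b0 x w (n + 1)).r ∧ (sch b0 x w (n + 1)).f d = some b0 := by
  exact ⟨(sch b0 x w n).r + if w n then 0 else (1 / 2 : ℝ) ^ (n + 1), st_hd _ n (w n),
    st_hr _ n (w n), ext1_f_self (sch b0 x w n) _ (some b0) _ (st_hd _ n (w n)) (st_hr _ n (w n))⟩

theorem sch_true (b0 : W) (x : Node W V) (w : ℕ → Bool) (n : ℕ) (h : w n = true) :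
    (sch b0 x w (n + 1)).f (sch b0 x w n).r = some b0 := by
  simp only [sch, st, ext1, h, if_true, add_zero, Function.update_self]

theorem sch_false (b0 : W) (x : Node W V) (w : ℕ → Bool) (n : ℕ) (h : w n = false) :
    (sch b0 x w (n + 1)).f (sch b0 x w n).r = none := by
  have h1 : (0 : ℝ) < (1 / 2 : ℝ) ^ (n + 1) := by positivity
  simp only [sch, st, ext1, h]
  rw [Function.update_of_ne]
  · exact (sch b0 x w n).top _ le_rfl
  · simp only [Bool.false_eq_true, if_false]
    linarith

theorem limc_inj (b0 : W) (x : Node W V) :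
    Function.Injective (fun w => limc (fun n => crs (sch b0 x w n))) := by
  have key : ∀ (w w' : ℕ → Bool) (n : ℕ), (∀ i, i < n → w i = w' i) → w n = true → w' n = false →
      limc (fun n => crs (sch b0 x w n)) ≠ limc (fun n => crs (sch b0 x w' n)) := by
    intro w w' n hag hw hw' h
    have hc := sch_congr b0 x hag
    have hpos : (0 : ℝ) < (1 / 2 : ℝ) ^ n := by positivity
    have h1 : limc (fun n => crs (sch b0 x w n)) (sch b0 x w n).r =
        col (sch b0 x w (n + 1)).f (sch b0 x w n).r :=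
      limc_eq (sch_mono b0 x w) (by rw [sch_r_succ]; linarith)
    have h2 : limc (fun n => crs (sch b0 x w' n)) (sch b0 x w' n).r =
        col (sch b0 x w' (n + 1)).f (sch b0 x w' n).r :=
      limc_eq (sch_mono b0 x w') (by rw [sch_r_succ]; linarith)
    have h3 : col (sch b0 x w' (n + 1)).f (sch b0 x w' n).r = 0 :=
      col_eq_zero.mpr (sch_false b0 x w' n hw')
    have h4 : col (sch b0 x w (n + 1)).f (sch b0 x w n).r ≠ 0 := by
      intro h0
      rw [col_eq_zero, sch_true b0 x w n hw] at h0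
      cases h0
    rw [← hc, ← h, h1] at h2
    rw [← hc] at h3
    exact h4 (h2.trans h3)
  intro w w' h
  by_contra hne
  have hex : ∃ n, w n ≠ w' n := by
    by_contra hcon
    push Not at hcon
    exact hne (funext hcon)
  classical
  have hn := Nat.find_spec hex
  have hmin : ∀ i, i < Nat.find hex → w i = w' i := fun i hi => by
    by_contra hcon
    exact Nat.find_min hex hi hcon
  rcases hb : w (Nat.find hex) with _ | _
  · rcases hb' : w' (Nat.find hex) with _ | _
    · exact hn (hb.trans hb'.symm)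
    · exact key w' w _ (fun i hi => (hmin i hi).symm) hb' hb h.symm
  · rcases hb' : w' (Nat.find hex) with _ | _
    · exact key w w' _ hmin hb hb' h
    · exact hn (hb.trans hb'.symm)

/-- Automorphisms preserve coarse words. -/
theorem agree (hV : Good V) (b0 : W) (e : Node W V ≃o Node W V) (x : Node W V) (s : ℝ)
    (hs : s < x.r) (hs' : s < (e x).r) : col x.f s = col (e x).f s := by
  by_contra hne
  let ww : List Bool → ℕ → Bool := fun u i => u.getD i false
  have hww : ∀ (w : ℕ → Bool) (n : ℕ), sch b0 x (ww ((List.range n).map w)) n = sch b0 x w n := by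
    intro w n
    apply sch_congr
    intro i hi
    simp only [ww]
    rw [List.getD_eq_getElem _ _ (by simpa using hi)]
    simp
  let p : List Bool → ℝ × {g : ℝ → Fin 3 // Gap g} := fun u => ccrs (sch b0 x (ww u) u.length)
  let q : List Bool → ℝ × {g : ℝ → Fin 3 // Gap g} := fun u => ccrs (e (sch b0 x (ww u) u.length))
  have hp : ∀ w, seqc p w = fun n => crs (sch b0 x w n) := by
    intro w
    funext n
    simp only [seqc, p, List.length_map, List.length_range]
    rw [hww w n]
    rfl
  have hq : ∀ w, seqc q w = fun n => crs (e (sch b0 x w n)) := by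
    intro w
    funext n
    simp only [seqc, q, List.length_map, List.length_range]
    rw [hww w n]
    rfl
  have hmono : ∀ w, Monotone (fun n => e (sch b0 x w n)) := fun w => e.monotone.comp (sch_mono b0 x w)
  have h1 : Function.Injective (fun w => limc (seqc p w)) := by
    simp only [hp]
    exact limc_inj b0 x
  have h2 : ∀ w, limc (seqc p w) ≠ limc (seqc q w) := by
    intro w h
    rw [hp, hq] at h
    have ha : limc (fun n => crs (sch b0 x w n)) s = col x.f s := limc_eq (n := 0) (sch_mono b0 x w) hs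
    have hb : limc (fun n => crs (e (sch b0 x w n))) s = col (e x).f s := limc_eq (n := 0) (hmono w) hs'
    rw [h, hb] at ha
    exact hne ha.symm
  obtain ⟨w, hw⟩ := hV p q h1 h2
  apply hw
  rw [hp, hq, ← bdd_iff (hmono w)]
  have hb1 : BddAbove (range fun n => (crs (sch b0 x w n)).1) :=
    ⟨x.r + 2, by rintro _ ⟨n, rfl⟩; exact sch_r_le b0 x w n⟩
  have hacc : Acc {s | limc (fun n => crs (sch b0 x w n)) s ≠ 0}
      (sSup (range fun n => (crs (sch b0 x w n)).1)) := by
    intro a ha
    obtain ⟨_, ⟨n, rfl⟩, hn⟩ := exists_lt_of_lt_csSup (range_nonempty _) ha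
    obtain ⟨d, hd1, hd2, hd3⟩ := sch_pt b0 x w n
    refine ⟨d, ?_, hn.trans_le hd1, hd2.trans_le (le_csSup hb1 (mem_range_self (n + 1)))⟩
    simp only [mem_ofPred_eq]
    rw [limc_eq (n := n + 1) (sch_mono b0 x w) hd2]
    intro h0
    rw [col_eq_zero, hd3] at h0
    cases h0
  have hP : BddAbove (range (sch b0 x w)) ↔ limc (fun n => crs (sch b0 x w n)) ∈ V := by
    rw [bdd_iff (sch_mono b0 x w)]
    exact ⟨fun h => h.2 hacc, fun h => ⟨hb1, fun _ => h⟩⟩
  rw [← hP]
  constructor
  · rintro ⟨b, hb⟩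
    exact ⟨e b, by rintro _ ⟨n, rfl⟩; exact e.monotone (hb (mem_range_self n))⟩
  · rintro ⟨b, hb⟩
    refine ⟨e.symm b, ?_⟩
    rintro _ ⟨n, rfl⟩
    have : e (sch b0 x w n) ≤ b := hb ⟨n, rfl⟩
    exact (e.le_symm_apply).mpr this

theorem not_r_lt (hV : Good V) (b0 : W) (e : Node W V ≃o Node W V) (x : Node W V) :
    ¬ x.r < (e x).r := by
  intro h
  have hlt : x.r < x.r + 1 := by linarith
  have key : ∀ ℓ : Option W, ¬ ((ℓ = none) ↔ col (e x).f x.r ≠ 0) := by
    intro ℓ hℓ
    let x1 := ext1 x x.r ℓ (x.r + 1) le_rfl hlt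
    have hx1 : x < x1 := lt_ext1 x x.r ℓ (x.r + 1) le_rfl hlt
    have he : e x < e x1 := e.strictMono hx1
    have h1 : col x1.f x.r = col (e x1).f x.r := agree hV b0 e x1 x.r hlt (h.trans (r_lt_of_lt he))
    have h2 : col (e x).f x.r = col (e x1).f x.r := col_congr he.le.2 x.r h
    have h3 : col x1.f x.r = 0 ↔ ℓ = none := by
      rw [col_eq_zero]
      rw [show x1.f x.r = ℓ from ext1_f_self x x.r ℓ (x.r + 1) le_rfl hlt]
    rw [h1, ← h2] at h3
    tauto
  by_cases hc : col (e x).f x.r = 0
  · exact key (some b0) (by simp [hc])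
  · exact key none (by simp [hc])

theorem r_eq (hV : Good V) (b0 : W) (e : Node W V ≃o Node W V) (x : Node W V) : (e x).r = x.r := by
  have h1 := not_r_lt hV b0 e x
  have h2 := not_r_lt hV b0 e.symm (e x)
  rw [OrderIso.symm_apply_apply] at h2
  exact le_antisymm (not_lt.mp h1) (not_lt.mp h2)

theorem label_eq [WellFoundedLT W] (hV : Good V) (β : W) :
    ∀ (e : Node W V ≃o Node W V) (x y : Node W V), x < y → y.f x.r = some β →
      (e y).f x.r = some β := by
  induction β using WellFoundedLT.induction with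
  | ind β ih =>
    intro e x y hxy hβ
    have hr : ∀ (e : Node W V ≃o Node W V) (x : Node W V), (e x).r = x.r := r_eq hV β
    have hag := fun e x s => agree (V := V) hV β e x s
    have hxr := r_lt_of_lt hxy
    have hne : (e y).f x.r ≠ none := by
      intro h0
      have h1 := hag e y x.r hxr (by rw [hr]; exact hxr)
      rw [col_eq_zero.mpr h0, col_eq_zero, hβ] at h1
      cases h1
    obtain ⟨β', hβ'⟩ := Option.ne_none_iff_exists'.mp hne
    rcases lt_trichotomy β' β with hlt | heq | hgt
    · exfalso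
      have h1 := ih β' hlt e.symm (e x) (e y) (e.strictMono hxy) (by rw [hr]; exact hβ')
      rw [OrderIso.symm_apply_apply, hr, hβ] at h1
      exact hlt.ne (Option.some.inj h1).symm
    · rw [hβ', heq]
    · exfalso
      obtain ⟨ε, hε, hgap⟩ := y.gap x.r
      let t := min y.r (x.r + ε)
      have hty : t ≤ y.r := min_le_left _ _
      have htx : x.r < t := lt_min hxr (by linarith)
      have h0 : 0 ≤ t := x.r_nonneg.trans htx.le
      let y' := res y t h0 hty
      have hy'r : y'.r = t := rfl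
      have hy'y : y' ≤ y := res_le y t h0 hty
      have hey'r : (e y').r = t := hr e y'
      have hy'x : y'.f x.r = some β := (res_f y t h0 hty htx).trans hβ
      have hy'0 : ∀ s, x.r < s → s < t → y'.f s = none := by
        intro s h1 h2
        rw [res_f y t h0 hty h2]
        exact hgap s h1 (h2.trans_le (min_le_right _ _))
      have hey'x : (e y').f x.r = some β' := by
        rw [(e.monotone hy'y).2 x.r (by rw [hey'r]; exact htx)]
        exact hβ'
      have hey'0 : ∀ s, x.r < s → s < t → (e y').f s = none := by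
        intro s h1 h2
        have h3 := hag e y' s h2 (by rw [hey'r]; exact h2)
        rw [col_eq_zero.mpr (hy'0 s h1 h2)] at h3
        exact col_eq_zero.mp h3.symm
      have ht1 : t < t + 1 := by linarith
      let v := ext1 (e y') t (some β) (t + 1) hey'r.le ht1
      have hv : e y' < v := lt_ext1 (e y') t (some β) (t + 1) hey'r.le ht1
      have hvt : v.f t = some β := ext1_f_self (e y') t (some β) (t + 1) hey'r.le ht1
      have hcv : col v.f t = 1 := by
        rw [col_eq_one]
        refine ⟨β', β, ⟨x.r, htx, ?_, ?_⟩, hvt, hgt⟩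
        · rw [ext1_f_lt (e y') t (some β) (t + 1) hey'r.le ht1 htx]
          exact hey'x
        · intro s h1 h2
          rw [ext1_f_lt (e y') t (some β) (t + 1) hey'r.le ht1 h2]
          exact hey'0 s h1 h2
      let u := e.symm v
      have hyu : y' < u := by
        have := e.symm.strictMono hv
        rwa [OrderIso.symm_apply_apply] at this
      have hur : u.r = t + 1 := hr e.symm v
      have hcu : col u.f t = 1 := by
        rw [← hcv]
        have := hag e.symm v t ht1 (by rw [hr]; exact ht1)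
        exact this.symm
      rw [col_eq_one] at hcu
      obtain ⟨α, β'', hprev, huf, hl⟩ := hcu
      have hprev' : Prev u.f t β := by
        refine ⟨x.r, htx, ?_, ?_⟩
        · rw [← hyu.le.2 x.r htx]; exact hy'x
        · intro s h1 h2
          rw [← hyu.le.2 s h2]
          exact hy'0 s h1 h2
      have hαβ : α = β := hprev.unique hprev'
      subst hαβ
      have h1 := ih β'' hl e y' u hyu huf
      rw [show e u = v from e.apply_symm_apply v] at h1
      have h2 : v.f t = some β'' := h1
      rw [hvt] at h2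
      exact hl.ne (Option.some.inj h2).symm

theorem rigid [WellFoundedLT W] (hV : Good V) (b0 : W) (e : Node W V ≃o Node W V)
    (x : Node W V) : e x = x := by
  have hr := r_eq hV b0 e x
  apply Node.ext hr
  funext s
  by_cases h0 : s < 0
  · rw [x.neg s h0, (e x).neg s h0]
  by_cases hs : x.r ≤ s
  · rw [x.top s hs, (e x).top s (by rw [hr]; exact hs)]
  rw [not_lt] at h0
  rw [not_le] at hs
  rcases hf : x.f s with _ | β
  · have h1 := agree hV b0 e x s hs (by rw [hr]; exact hs)
    rw [col_eq_zero.mpr hf] at h1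
    exact col_eq_zero.mp h1.symm
  · exact label_eq hV β e (res x s h0 hs.le) x (res_lt x s h0 hs) hf

end

end Pool.Agent.V11249.RigidTree
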