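import Pool.Agent.V11249.RigidDiag

set_option autoImplicit false

namespace Pool.Agent.V11249.RigidTree

open Set Cardinal

universe u

/-- `α` is the last label of `f` before `s`. -/
def Prev {W : Type u} (f : ℝ → Option W) (s : ℝ) (α : W) : Prop :=
  ∃ s', s' < s ∧ f s' = some α ∧ ∀ t, s' < t → t < s → f t = none

open Classical in
/-- The colour of `f` at `s`. -/
noncomputable def col {W : Type u} [LinearOrder W] (f : ℝ → Option W) (s : ℝ) : Fin 3 :=
  if f s = none then 0
  else if ∃ α β, Prev f s α ∧ f s = some β ∧ β < α then 1 else 2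

/-- `S` accumulates at `t` from the left. -/
def Acc (S : Set ℝ) (t : ℝ) : Prop := ∀ a, a < t → ∃ s ∈ S, a < s ∧ s < t

open Classical in
/-- Restriction of a word below `t`. -/
noncomputable def cut (g : ℝ → Fin 3) (t : ℝ) : ℝ → Fin 3 := fun s => if s < t then g s else 0

section

variable {W : Type u}

theorem Prev.unique {f : ℝ → Option W} {s : ℝ} {α β : W} (h : Prev f s α) (h' : Prev f s β) :
    α = β := by
  obtain ⟨a, ha, hfa, hna⟩ := h
  obtain ⟨b, hb, hfb, hnb⟩ := h'
  rcases lt_trichotomy a b with hlt | heq | hgt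
  · rw [hna b hlt hb] at hfb; cases hfb
  · subst heq
    rw [hfa] at hfb
    exact Option.some.inj hfb
  · rw [hnb a hgt ha] at hfa; cases hfa

theorem Prev.congr {f f' : ℝ → Option W} {s : ℝ} {α : W} (h : ∀ t, t < s → f t = f' t)
    (hp : Prev f s α) : Prev f' s α := by
  obtain ⟨a, ha, hfa, hna⟩ := hp
  exact ⟨a, ha, (h a ha).symm.trans hfa, fun t h1 h2 => (h t h2).symm.trans (hna t h1 h2)⟩

theorem Acc.congr {S S' : Set ℝ} {t : ℝ} (h : ∀ s, s < t → s ∈ S → s ∈ S') (ha : Acc S t) :
    Acc S' t := by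
  intro a hat
  obtain ⟨s, hs, h1, h2⟩ := ha a hat
  exact ⟨s, h s h2 hs, h1, h2⟩

variable [LinearOrder W]

theorem col_eq_zero {f : ℝ → Option W} {s : ℝ} : col f s = 0 ↔ f s = none := by
  unfold col
  split_ifs with h1 h2
  · simp [h1]
  · simp [h1]
  · simp [h1]

theorem col_eq_one {f : ℝ → Option W} {s : ℝ} :
    col f s = 1 ↔ ∃ α β, Prev f s α ∧ f s = some β ∧ β < α := by
  unfold col
  split_ifs with h1 h2
  · constructor
    · intro h; simp at h
    · rintro ⟨α, β, _, h, _⟩
      rw [h1] at h; cases h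
  · exact ⟨fun _ => h2, fun _ => rfl⟩
  · constructor
    · intro h
      exact absurd h (by decide)
    · intro h; exact absurd h h2

theorem col_congr_at {f f' : ℝ → Option W} {s : ℝ} (h : ∀ t, t ≤ s → f t = f' t) :
    col f s = col f' s := by
  have h1 : f s = f' s := h s le_rfl
  have h2 : (∃ α β, Prev f s α ∧ f s = some β ∧ β < α) ↔ (∃ α β, Prev f' s α ∧ f' s = some β ∧ β < α) := by
    constructor
    · rintro ⟨α, β, hp, hf, hl⟩
      exact ⟨α, β, hp.congr (fun t ht => h t ht.le), h1 ▸ hf, hl⟩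
    · rintro ⟨α, β, hp, hf, hl⟩
      exact ⟨α, β, hp.congr (fun t ht => (h t ht.le).symm), h1.symm ▸ hf, hl⟩
  unfold col
  rw [h1]
  by_cases h3 : f' s = none
  · simp [h3]
  · simp only [h3, if_false]
    rw [h1] at h2
    by_cases h4 : ∃ α β, Prev f s α ∧ f' s = some β ∧ β < α
    · rw [if_pos h4, if_pos (h2.mp h4)]
    · rw [if_neg h4, if_neg (fun h => h4 (h2.mpr h))]

theorem col_congr {f f' : ℝ → Option W} {t : ℝ} (h : ∀ s, s < t → f s = f' s) :
    ∀ s, s < t → col f s = col f' s :=
  fun s hs => col_congr_at (fun u hu => h u (hu.trans_lt hs))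

theorem cut_col_congr {f f' : ℝ → Option W} {t : ℝ} (h : ∀ s, s < t → f s = f' s) :
    cut (col f) t = cut (col f') t := by
  funext s
  unfold cut
  split_ifs with hs
  · exact col_congr h s hs
  · rfl

/-- Nodes of the tree. -/
@[ext]
structure Node (W : Type u) [LinearOrder W] (V : Set (ℝ → Fin 3)) where
  r : ℝ
  f : ℝ → Option W
  r_nonneg : 0 ≤ r
  neg : ∀ s, s < 0 → f s = none
  top : ∀ s, r ≤ s → f s = none
  gap : ∀ s, ∃ ε > 0, ∀ t, s < t → t < s + ε → f t = none
  lim : ∀ t, t ≤ r → Acc {s | f s ≠ none} t → cut (col f) t ∈ V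

variable {V : Set (ℝ → Fin 3)}

instance : PartialOrder (Node W V) where
  le x y := x.r ≤ y.r ∧ ∀ s, s < x.r → x.f s = y.f s
  le_refl x := ⟨le_rfl, fun _ _ => rfl⟩
  le_trans x y z h h' := ⟨h.1.trans h'.1, fun s hs => (h.2 s hs).trans (h'.2 s (hs.trans_le h.1))⟩
  le_antisymm x y h h' := by
    have hr : x.r = y.r := le_antisymm h.1 h'.1
    apply Node.ext hr
    funext s
    by_cases hs : s < x.r
    · exact h.2 s hs
    · rw [not_lt] at hs
      rw [x.top s hs, y.top s (hr ▸ hs)]

theorem le_def {x y : Node W V} : x ≤ y ↔ x.r ≤ y.r ∧ ∀ s, s < x.r → x.f s = y.f s := Iff.rfl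

theorem r_lt_of_lt {x y : Node W V} (h : x < y) : x.r < y.r := by
  rcases eq_or_lt_of_le h.le.1 with h' | h'
  · exfalso
    apply h.not_ge
    exact ⟨h'.ge, fun s hs => (h.le.2 s (h' ▸ hs)).symm⟩
  · exact h'

theorem lt_of {x y : Node W V} (h : x.r < y.r) (h' : ∀ s, s < x.r → x.f s = y.f s) : x < y :=
  lt_of_le_not_ge ⟨h.le, h'⟩ (fun h2 => absurd h2.1 (not_le.mpr h))

/-- Restriction of a node. -/
noncomputable def res (x : Node W V) (t : ℝ) (h0 : 0 ≤ t) (ht : t ≤ x.r) : Node W V := by
  classical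
  exact
  { r := t
    f := fun s => if s < t then x.f s else none
    r_nonneg := h0
    neg := fun s hs => by simp [x.neg s hs]
    top := fun s hs => by simp [not_lt.mpr hs]
    gap := fun s => by
      obtain ⟨ε, hε, h⟩ := x.gap s
      exact ⟨ε, hε, fun t' h1 h2 => by simp [h t' h1 h2]⟩
    lim := fun t' ht' hacc => by
      have hc : ∀ s, s < t' → (if s < t then x.f s else none) = x.f s := fun s hs => by
        rw [if_pos (hs.trans_le ht')]
      rw [cut_col_congr hc]
      refine x.lim t' (ht'.trans ht) (hacc.congr ?_)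
      intro s hs hs'
      simp only [mem_ofPred_eq] at hs' ⊢
      rwa [hc s hs] at hs' }

theorem res_r (x : Node W V) (t : ℝ) (h0 : 0 ≤ t) (ht : t ≤ x.r) : (res x t h0 ht).r = t := rfl

theorem res_f (x : Node W V) (t : ℝ) (h0 : 0 ≤ t) (ht : t ≤ x.r) {s : ℝ} (hs : s < t) :
    (res x t h0 ht).f s = x.f s := by
  simp [res, hs]

theorem res_le (x : Node W V) (t : ℝ) (h0 : 0 ≤ t) (ht : t ≤ x.r) : res x t h0 ht ≤ x :=
  ⟨ht, fun _ hs => res_f x t h0 ht hs⟩

theorem res_lt (x : Node W V) (t : ℝ) (h0 : 0 ≤ t) (ht : t < x.r) : res x t h0 ht.le < x :=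
  lt_of ht (fun _ hs => res_f x t h0 ht.le hs)

open Classical in
/-- Extension of a node by one label `ℓ` at `d`, up to height `r'`. -/
noncomputable def ext1 (x : Node W V) (d : ℝ) (ℓ : Option W) (r' : ℝ) (hd : x.r ≤ d) (hr : d < r') :
    Node W V where
  r := r'
  f := Function.update x.f d ℓ
  r_nonneg := x.r_nonneg.trans (hd.trans hr.le)
  neg s hs := by
    have : s ≠ d := (hs.trans_le (x.r_nonneg.trans hd)).ne
    rw [Function.update_of_ne this]
    exact x.neg s hs
  top s hs := by
    have : s ≠ d := (hr.trans_le hs).ne'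
    rw [Function.update_of_ne this]
    exact x.top s (hd.trans (hr.le.trans hs))
  gap s := by
    obtain ⟨ε, hε, h⟩ := x.gap s
    by_cases hsd : s < d
    · refine ⟨min ε (d - s), lt_min hε (by linarith), fun t h1 h2 => ?_⟩
      have ht : t < d := by
        have := min_le_right ε (d - s)
        linarith
      rw [Function.update_of_ne ht.ne]
      exact h t h1 (by have := min_le_left ε (d - s); linarith)
    · rw [not_lt] at hsd
      refine ⟨ε, hε, fun t h1 h2 => ?_⟩
      rw [Function.update_of_ne (hsd.trans_lt h1).ne']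
      exact h t h1 h2
  lim t ht hacc := by
    by_cases htd : t ≤ d
    · have hc : ∀ s, s < t → Function.update x.f d ℓ s = x.f s := fun s hs =>
        Function.update_of_ne (hs.trans_le htd).ne _ _
      rw [cut_col_congr hc]
      have hacc' : Acc {s | x.f s ≠ none} t := hacc.congr (by
        intro s hs hs'
        simp only [mem_ofPred_eq] at hs' ⊢
        rwa [hc s hs] at hs')
      by_cases htx : t ≤ x.r
      · exact x.lim t htx hacc'
      · rw [not_le] at htx
        obtain ⟨s, hs, h1, h2⟩ := hacc' x.r htx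
        exact absurd (x.top s h1.le) hs
    · rw [not_le] at htd
      obtain ⟨s, hs, h1, h2⟩ := hacc d htd
      simp only [mem_ofPred_eq] at hs
      rw [Function.update_of_ne h1.ne'] at hs
      exact absurd (x.top s (hd.trans h1.le)) hs

theorem ext1_f_lt (x : Node W V) (d : ℝ) (ℓ : Option W) (r' : ℝ) (hd : x.r ≤ d) (hr : d < r')
    {s : ℝ} (hs : s < d) : (ext1 x d ℓ r' hd hr).f s = x.f s :=
  Function.update_of_ne hs.ne _ _

theorem ext1_f_self (x : Node W V) (d : ℝ) (ℓ : Option W) (r' : ℝ) (hd : x.r ≤ d) (hr : d < r') :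
    (ext1 x d ℓ r' hd hr).f d = ℓ :=
  Function.update_self _ _ _

theorem lt_ext1 (x : Node W V) (d : ℝ) (ℓ : Option W) (r' : ℝ) (hd : x.r ≤ d) (hr : d < r') :
    x < ext1 x d ℓ r' hd hr :=
  lt_of (hd.trans_lt hr) (fun s hs => (ext1_f_lt x d ℓ r' hd hr (hs.trans_le hd)).symm)

/-- The tree property. -/
theorem tree_chain {x y z : Node W V} (hy : y ≤ x) (hz : z ≤ x) : y ≤ z ∨ z ≤ y := by
  rcases le_total y.r z.r with h | h
  · exact Or.inl ⟨h, fun s hs => (hy.2 s hs).trans (hz.2 s (hs.trans_le h)).symm⟩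
  · exact Or.inr ⟨h, fun s hs => (hz.2 s hs).trans (hy.2 s (hs.trans_le h)).symm⟩

/-- Components above `x` correspond to labels. -/
theorem comp_iff {x y z : Node W V} (hy : x < y) (hz : x < z) :
    (∃ w, x < w ∧ w ≤ y ∧ w ≤ z) ↔ y.f x.r = z.f x.r := by
  constructor
  · rintro ⟨w, hw, hwy, hwz⟩
    rw [← hwy.2 _ (r_lt_of_lt hw), ← hwz.2 _ (r_lt_of_lt hw)]
  · intro h
    obtain ⟨ε, hε, h1⟩ := y.gap x.r
    obtain ⟨ε', hε', h1'⟩ := z.gap x.r
    let t := min (min y.r z.r) (x.r + min ε ε')
    have hty : t ≤ y.r := (min_le_left _ _).trans (min_le_left _ _)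
    have htz : t ≤ z.r := (min_le_left _ _).trans (min_le_right _ _)
    have htx : x.r < t := lt_min (lt_min (r_lt_of_lt hy) (r_lt_of_lt hz)) (by
      have := lt_min hε hε'
      linarith)
    have h0 : 0 ≤ t := x.r_nonneg.trans htx.le
    have key : ∀ s, s < t → y.f s = z.f s := by
      intro s hs
      rcases lt_trichotomy s x.r with h2 | h2 | h2
      · rw [← hy.le.2 s h2, ← hz.le.2 s h2]
      · rw [h2]; exact h
      · have h3 : t ≤ x.r + min ε ε' := min_le_right _ _
        have h4 := min_le_left ε ε'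
        have h5 := min_le_right ε ε'
        rw [h1 s h2 (by linarith), h1' s h2 (by linarith)]
    refine ⟨res y t h0 hty, ?_, res_le y t h0 hty, ?_⟩
    · refine lt_of htx (fun s hs => ?_)
      rw [res_f y t h0 hty (hs.trans htx)]
      exact hy.le.2 s hs
    · exact ⟨htz, fun s hs => (res_f y t h0 hty hs).trans (key s hs)⟩

theorem exists_meet (x y : Node W V) : ∃ m, IsGLB {x, y} m := by
  let A : Set ℝ := {t | 0 ≤ t ∧ t ≤ x.r ∧ t ≤ y.r ∧ ∀ s, s < t → x.f s = y.f s}
  have hA0 : (0 : ℝ) ∈ A := ⟨le_rfl, x.r_nonneg, y.r_nonneg, fun s hs => by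
    rw [x.neg s hs, y.neg s hs]⟩
  have hbdd : BddAbove A := ⟨x.r, fun t ht => ht.2.1⟩
  let m := sSup A
  have hm0 : 0 ≤ m := le_csSup hbdd hA0
  have hmx : m ≤ x.r := csSup_le ⟨0, hA0⟩ (fun t ht => ht.2.1)
  have hmy : m ≤ y.r := csSup_le ⟨0, hA0⟩ (fun t ht => ht.2.2.1)
  have heq : ∀ s, s < m → x.f s = y.f s := by
    intro s hs
    obtain ⟨t, ht, hst⟩ := exists_lt_of_lt_csSup ⟨0, hA0⟩ hs
    exact ht.2.2.2 s hst
  refine ⟨res x m hm0 hmx, ?_, ?_⟩
  · intro z hz
    rcases hz with rfl | hz
    · exact res_le _ m hm0 hmx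
    · rw [mem_singleton_iff] at hz
      subst hz
      exact ⟨hmy, fun s hs => (res_f x m hm0 hmx hs).trans (heq s hs)⟩
  · intro z hz
    have hzx : z ≤ x := hz (Or.inl rfl)
    have hzy : z ≤ y := hz (Or.inr rfl)
    have hzA : z.r ∈ A := ⟨z.r_nonneg, hzx.1, hzy.1, fun s hs => by
      rw [← hzx.2 s hs, ← hzy.2 s hs]⟩
    have hzm : z.r ≤ m := le_csSup hbdd hzA
    exact ⟨hzm, fun s hs => (hzx.2 s hs).trans (res_f x m hm0 hmx (hs.trans_le hzm)).symm⟩

/-! ### Branches and components -/

/-- The components above `x`. -/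
def components {X : Type u} [PartialOrder X] (x : X) : Set (Set X) :=
  {C | ∃ y, x < y ∧ C = {z | ∃ w, x < w ∧ w ≤ y ∧ w ≤ z}}

theorem mk_components (hW : ℵ₀ ≤ #W) (x : Node W V) : #(components x) = #W := by
  have hlt : x.r < x.r + 1 := by linarith
  let y : Option W → Node W V := fun ℓ => ext1 x x.r ℓ (x.r + 1) le_rfl hlt
  have hy : ∀ ℓ, x < y ℓ := fun ℓ => lt_ext1 x x.r ℓ (x.r + 1) le_rfl hlt
  have hyf : ∀ ℓ, (y ℓ).f x.r = ℓ := fun ℓ => ext1_f_self x x.r ℓ (x.r + 1) le_rfl hlt
  let F : Option W → components x := fun ℓ => ⟨{z | ∃ w, x < w ∧ w ≤ y ℓ ∧ w ≤ z}, y ℓ, hy ℓ, rfl⟩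
  have hinj : Function.Injective F := by
    intro ℓ ℓ' h
    have h1 : {z | ∃ w, x < w ∧ w ≤ y ℓ ∧ w ≤ z} = {z | ∃ w, x < w ∧ w ≤ y ℓ' ∧ w ≤ z} :=
      congrArg Subtype.val h
    have h2 : y ℓ ∈ {z | ∃ w, x < w ∧ w ≤ y ℓ ∧ w ≤ z} := ⟨y ℓ, hy ℓ, le_rfl, le_rfl⟩
    rw [h1] at h2
    have h3 := (comp_iff (hy ℓ') (hy ℓ)).mp h2
    rw [hyf, hyf] at h3
    exact h3.symm
  have hsurj : Function.Surjective F := by
    rintro ⟨C, z, hz, rfl⟩
    refine ⟨z.f x.r, ?_⟩
    apply Subtype.ext
    simp only [F]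
    ext u
    constructor
    · rintro ⟨w, hw, hwy, hwu⟩
      have hu : x < u := hw.trans_le hwu
      have h1 := (comp_iff (hy _) hu).mp ⟨w, hw, hwy, hwu⟩
      rw [hyf] at h1
      exact (comp_iff hz hu).mpr h1
    · rintro ⟨w, hw, hwz, hwu⟩
      have hu : x < u := hw.trans_le hwu
      have h1 := (comp_iff hz hu).mp ⟨w, hw, hwz, hwu⟩
      refine (comp_iff (hy _) hu).mpr ?_
      rw [hyf]
      exact h1
  rw [← Cardinal.mk_congr (Equiv.ofBijective F ⟨hinj, hsurj⟩), Cardinal.mk_option]
  exact Cardinal.add_one_eq hW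

theorem branch_down {B : Set (Node W V)} (hB : IsMaxChain (· ≤ ·) B) {x y : Node W V}
    (hx : x ∈ B) (hyx : y ≤ x) : y ∈ B := by
  have hc : IsChain (· ≤ ·) (insert y B) := by
    refine hB.1.insert ?_
    intro b hb _
    rcases hB.1.total hx hb with h | h
    · exact Or.inl (hyx.trans h)
    · exact tree_chain hyx h
  have := hB.2 hc (subset_insert y B)
  rw [this]
  exact mem_insert y B

theorem branch_image {B : Set (Node W V)} (hB : IsMaxChain (· ≤ ·) B) :
    (Node.r '' B).OrdConnected := by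
  refine ⟨?_⟩
  rintro _ ⟨x, hx, rfl⟩ _ ⟨y, hy, rfl⟩ t ⟨h1, h2⟩
  exact ⟨res y t (x.r_nonneg.trans h1) h2, branch_down hB hy (res_le _ _ _ _), rfl⟩

theorem le_of_r_le {B : Set (Node W V)} (hB : IsChain (· ≤ ·) B) {x y : Node W V}
    (hx : x ∈ B) (hy : y ∈ B) (h : x.r ≤ y.r) : x ≤ y := by
  rcases hB.total hx hy with h' | h'
  · exact h'
  · exact ⟨h, fun s hs => (h'.2 s (hs.trans_le h)).symm⟩

/-- Every branch is isomorphic to its image under the height, an interval. -/
theorem branch_iso {B : Set (Node W V)} (hB : IsMaxChain (· ≤ ·) B) :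
    Nonempty (B ≃o (Node.r '' B)) := by
  let F : B → (Node.r '' B) := fun x => ⟨x.1.r, x.1, x.2, rfl⟩
  have hinj : Function.Injective F := by
    intro x y h
    have h' : x.1.r = y.1.r := congrArg Subtype.val h
    apply Subtype.ext
    exact le_antisymm (le_of_r_le hB.1 x.2 y.2 h'.le) (le_of_r_le hB.1 y.2 x.2 h'.ge)
  have hsurj : Function.Surjective F := by
    rintro ⟨_, x, hx, rfl⟩
    exact ⟨⟨x, hx⟩, rfl⟩
  refine ⟨{ Equiv.ofBijective F ⟨hinj, hsurj⟩ with map_rel_iff' := ?_ }⟩
  intro x y
  constructor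
  · intro h
    exact le_of_r_le hB.1 x.2 y.2 h
  · intro h
    exact h.1

/-- Every node has a proper extension, so no branch is a single point. -/
theorem branch_nontrivial [Nonempty W] {B : Set (Node W V)} (hB : IsMaxChain (· ≤ ·) B) :
    (Node.r '' B).Nontrivial := by
  have hne : B.Nonempty := by
    by_contra h
    rw [not_nonempty_iff_eq_empty] at h
    subst h
    let z : Node W V :=
      { r := 0, f := fun _ => none, r_nonneg := le_rfl, neg := fun _ _ => rfl, top := fun _ _ => rfl,
        gap := fun _ => ⟨1, one_pos, fun _ _ _ => rfl⟩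
        lim := fun t ht hacc => by
          obtain ⟨s, hs, _⟩ := hacc (t - 1) (by linarith)
          exact absurd rfl hs }
    have := hB.2 (Set.subsingleton_singleton (a := z)).isChain (empty_subset _)
    exact (singleton_nonempty z).ne_empty this.symm
  obtain ⟨x, hx⟩ := hne
  -- a maximal chain has no largest element
  have hex : ∃ y ∈ B, x.r < y.r ∨ y.r < x.r := by
    by_contra hcon
    push Not at hcon
    have hlt : x.r < x.r + 1 := by linarith
    have hall : ∀ y ∈ B, y = x := by
      intro y hy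
      have h := hcon y hy
      exact le_antisymm (le_of_r_le hB.1 hy hx h.1) (le_of_r_le hB.1 hx hy h.2)
    let z := ext1 x x.r none (x.r + 1) le_rfl hlt
    have hxz : x < z := lt_ext1 x x.r none (x.r + 1) le_rfl hlt
    have hc : IsChain (· ≤ ·) (insert z B) := by
      refine hB.1.insert ?_
      intro b hb _
      rw [hall b hb]
      exact Or.inr hxz.le
    have := hB.2 hc (subset_insert z B)
    have hz : z ∈ B := by rw [this]; exact mem_insert z B
    exact hxz.ne (hall z hz).symm
  obtain ⟨y, hy, h⟩ := hex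
  refine ⟨x.r, ⟨x, hx, rfl⟩, y.r, ⟨y, hy, rfl⟩, ?_⟩
  rcases h with h | h
  · exact h.ne
  · exact h.ne'

/-! ### Limits of increasing sequences -/

open Classical in
/-- The limit of the coarse words along a sequence. -/
noncomputable def limc (c : ℕ → ℝ × (ℝ → Fin 3)) : ℝ → Fin 3 :=
  fun s => if h : ∃ n, s < (c n).1 then (c (Nat.find h)).2 s else 0

/-- Coarse data of a node. -/
noncomputable def crs (x : Node W V) : ℝ × (ℝ → Fin 3) := (x.r, col x.f)

theorem limc_eq {x : ℕ → Node W V} (hx : Monotone x) {s : ℝ} {n : ℕ} (hs : s < (x n).r) :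
    limc (fun n => crs (x n)) s = col (x n).f s := by
  have hex : ∃ n, s < (crs (x n)).1 := ⟨n, hs⟩
  unfold limc
  rw [dif_pos hex]
  have hm : s < (x (Nat.find hex)).r := Nat.find_spec hex
  change col (x (Nat.find hex)).f s = _
  rcases le_total (Nat.find hex) n with h | h
  · exact col_congr (hx h).2 s hm
  · exact (col_congr (hx h).2 s hs).symm

theorem limc_zero {x : ℕ → Node W V} {s : ℝ} (hs : ∀ n, (x n).r ≤ s) :
    limc (fun n => crs (x n)) s = 0 := by
  unfold limc
  rw [dif_neg]
  rintro ⟨n, hn⟩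
  exact absurd hn (not_lt.mpr (hs n))

theorem bdd_iff {x : ℕ → Node W V} (hx : Monotone x) :
    BddAbove (range x) ↔ (BddAbove (range fun n => (crs (x n)).1) ∧
      (Acc {s | limc (fun n => crs (x n)) s ≠ 0} (sSup (range fun n => (crs (x n)).1)) →
        limc (fun n => crs (x n)) ∈ V)) := by
  classical
  constructor
  · rintro ⟨b, hb⟩
    have hbn : ∀ n, x n ≤ b := fun n => hb (mem_range_self n)
    have hbd : BddAbove (range fun n => (crs (x n)).1) :=
      ⟨b.r, by rintro _ ⟨n, rfl⟩; exact (hbn n).1⟩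
    refine ⟨hbd, ?_⟩
    intro hacc
    let t := sSup (range fun n => (crs (x n)).1)
    have htb : t ≤ b.r := csSup_le (range_nonempty _) (by rintro _ ⟨n, rfl⟩; exact (hbn n).1)
    have hlow : ∀ s, s < t → limc (fun n => crs (x n)) s = col b.f s := by
      intro s hs
      obtain ⟨_, ⟨n, rfl⟩, hn⟩ := exists_lt_of_lt_csSup (range_nonempty _) hs
      rw [limc_eq hx hn]
      exact col_congr (hbn n).2 s hn
    have hup : ∀ s, t ≤ s → limc (fun n => crs (x n)) s = 0 := by
      intro s hs
      exact limc_zero (fun n => (le_csSup hbd (mem_range_self n)).trans hs)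
    have h1 : Acc {s | b.f s ≠ none} t := hacc.congr (by
      intro s hs hs'
      simp only [mem_ofPred_eq] at hs' ⊢
      rw [hlow s hs] at hs'
      exact fun h => hs' (col_eq_zero.mpr h))
    have h2 := b.lim t htb h1
    have h3 : limc (fun n => crs (x n)) = cut (col b.f) t := by
      funext s
      unfold cut
      split_ifs with hs
      · exact hlow s hs
      · exact hup s (not_lt.mp hs)
    rw [h3]; exact h2
  · rintro ⟨hbd, hV⟩
    let t := sSup (range fun n => (crs (x n)).1)
    have hnt : ∀ n, (x n).r ≤ t := fun n => le_csSup hbd (mem_range_self n)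
    let f : ℝ → Option W := fun s => if h : ∃ n, s < (x n).r then (x (Nat.find h)).f s else none
    have hf : ∀ n s, s < (x n).r → f s = (x n).f s := by
      intro n s hs
      have hex : ∃ n, s < (x n).r := ⟨n, hs⟩
      have h1 : f s = (x (Nat.find hex)).f s := dif_pos hex
      rw [h1]
      have hm : s < (x (Nat.find hex)).r := Nat.find_spec hex
      rcases le_total (Nat.find hex) n with h | h
      · exact (hx h).2 s hm
      · exact ((hx h).2 s hs).symm
    have hf0 : ∀ s, t ≤ s → f s = none := by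
      intro s hs
      refine dif_neg ?_
      rintro ⟨n, hn⟩
      exact absurd (hn.trans_le (hnt n)) (not_lt.mpr hs)
    have hlt : ∀ s, s < t → ∃ n, s < (x n).r := by
      intro s hs
      obtain ⟨_, ⟨n, rfl⟩, hn⟩ := exists_lt_of_lt_csSup (range_nonempty _) hs
      exact ⟨n, hn⟩
    have hcol : ∀ n s, s < (x n).r → col f s = col (x n).f s := fun n s hs =>
      col_congr (t := (x n).r) (fun u hu => hf n u hu) s hs
    let b : Node W V :=
      { r := t
        f := f
        r_nonneg := (x 0).r_nonneg.trans (hnt 0)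
        neg := fun s hs => by
          rw [hf 0 s (hs.trans_le (x 0).r_nonneg)]
          exact (x 0).neg s hs
        top := hf0
        gap := fun s => by
          by_cases hs : s < t
          · obtain ⟨n, hn⟩ := hlt s hs
            obtain ⟨ε, hε, h⟩ := (x n).gap s
            refine ⟨min ε ((x n).r - s), lt_min hε (by linarith), ?_⟩
            intro u hu hu'
            have h1 := min_le_left ε ((x n).r - s)
            have h2 := min_le_right ε ((x n).r - s)
            rw [hf n u (by linarith)]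
            exact h u hu (by linarith)
          · rw [not_lt] at hs
            exact ⟨1, one_pos, fun u hu _ => hf0 u (hs.trans hu.le)⟩
        lim := fun t' ht' hacc => by
          by_cases hn : ∃ n, t' ≤ (x n).r
          · obtain ⟨n, hn⟩ := hn
            have hc : ∀ s, s < t' → f s = (x n).f s := fun s hs => hf n s (hs.trans_le hn)
            rw [cut_col_congr hc]
            refine (x n).lim t' hn (hacc.congr ?_)
            intro s hs hs'
            simp only [mem_ofPred_eq] at hs' ⊢
            rwa [hc s hs] at hs'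
          · push Not at hn
            have htt : t' = t := le_antisymm ht' (csSup_le (range_nonempty _) (by
              rintro _ ⟨n, rfl⟩
              exact (hn n).le))
            subst htt
            have hlim : limc (fun n => crs (x n)) = cut (col f) t := by
              funext s
              unfold cut
              split_ifs with hs
              · obtain ⟨n, hn⟩ := hlt s hs
                rw [limc_eq hx hn, hcol n s hn]
              · exact limc_zero (fun n => (hnt n).trans (not_lt.mp hs))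
            have h1 : limc (fun n => crs (x n)) ∈ V := by
              apply hV
              refine hacc.congr ?_
              intro s hs hs'
              simp only [mem_ofPred_eq] at hs' ⊢
              obtain ⟨n, hn⟩ := hlt s hs
              rw [limc_eq hx hn, ← hcol n s hn]
              exact fun h => hs' (col_eq_zero.mp h)
            rw [← hlim]
            exact h1 }
    refine ⟨b, ?_⟩
    rintro _ ⟨n, rfl⟩
    exact ⟨hnt n, fun s hs => (hf n s hs).symm⟩

end

end Pool.Agent.V11249.RigidTree
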